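import Mathlib

/-!
# Two dense subsets of the cube contain points at a small distance
-/

set_option autoImplicit false

namespace Pool.Agent.H40.CT

open Finset

/-- The section of `F` at the value `c` of the first coordinate. -/
def sec {m : ℕ} (F : Finset (Fin (m + 1) → ZMod 2)) (c : ZMod 2) : Finset (Fin m → ZMod 2) :=
  univ.filter fun y => (Fin.cons c y : Fin (m + 1) → ZMod 2) ∈ F

theorem mem_sec {m : ℕ} (F : Finset (Fin (m + 1) → ZMod 2)) (c : ZMod 2) (y : Fin m → ZMod 2) :
    y ∈ sec F c ↔ (Fin.cons c y : Fin (m + 1) → ZMod 2) ∈ F := by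
  simp [sec]

theorem card_sec {m : ℕ} (F : Finset (Fin (m + 1) → ZMod 2)) :
    F.card = (sec F 0).card + (sec F 1).card := by
  classical
  have h : ∀ c : ZMod 2, (F.filter fun x => x 0 = c).card = (sec F c).card := by
    intro c
    refine Finset.card_nbij' (fun x => Fin.tail x) (fun y => (Fin.cons c y : Fin (m + 1) → ZMod 2))
      ?_ ?_ ?_ ?_
    · intro x hx
      rw [Finset.mem_coe, mem_filter] at hx
      rw [Finset.mem_coe, mem_sec, ← hx.2, Fin.cons_self_tail]
      exact hx.1
    · intro y hy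
      rw [Finset.mem_coe, mem_sec] at hy
      rw [Finset.mem_coe, mem_filter]
      exact ⟨hy, by simp⟩
    · intro x hx
      rw [Finset.mem_coe, mem_filter] at hx
      simp only
      rw [← hx.2, Fin.cons_self_tail]
    · intro y _
      simp
  have h2 := Finset.card_eq_sum_card_fiberwise (s := F) (t := (univ : Finset (ZMod 2)))
    (f := fun x => x 0) (fun x _ => by simp)
  rw [h2, ← h 0, ← h 1]
  exact Fin.sum_univ_two (fun b : Fin 2 => (F.filter fun x => x 0 = (b : ZMod 2)).card)

theorem dist_cons {m : ℕ} (a b : ZMod 2) (y z : Fin m → ZMod 2) :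
    hammingDist (Fin.cons a y : Fin (m + 1) → ZMod 2) (Fin.cons b z : Fin (m + 1) → ZMod 2) =
      (if a = b then 0 else 1) + hammingDist y z := by
  unfold hammingDist
  rw [Finset.card_filter, Finset.card_filter, Fin.sum_univ_succ]
  simp only [Fin.cons_zero, Fin.cons_succ, ne_eq, ite_not]

theorem add_le {t X p q : ℝ} (ht : 1 ≤ t) (hX : 0 ≤ X) (hp : p ≤ t * X) (hq : q ≤ t * X)
    (hpq : p * q ≤ X * X) : p + q ≤ (t + t⁻¹) * X := by
  have h0 : 0 < t := by linarith
  by_cases h : p ≤ t⁻¹ * X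
  · nlinarith
  · rw [not_le] at h
    have h1 : 0 ≤ t⁻¹ * X := mul_nonneg (inv_nonneg.2 h0.le) hX
    have h2 : 0 < p := by linarith
    have h3 : 0 ≤ (t * X - p) * (p - t⁻¹ * X) := mul_nonneg (by linarith) (by linarith)
    have h4 : t * t⁻¹ = 1 := mul_inv_cancel₀ h0.ne'
    have h5 : (t * X - p) * (p - t⁻¹ * X) = (t + t⁻¹) * X * p - p * p - (t * t⁻¹) * (X * X) := by
      ring
    rw [h4, one_mul] at h5
    have h6 : (p + q) * p ≤ ((t + t⁻¹) * X) * p := by nlinarith
    exact le_of_mul_le_mul_right h6 h2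

/-- Two sets at a distance of at least `D`. -/
theorem two_sets {t : ℝ} (ht : 1 ≤ t) : ∀ (m D : ℕ) (F G : Finset (Fin m → ZMod 2)),
    (∀ y ∈ F, ∀ z ∈ G, D ≤ hammingDist y z) →
      (F.card : ℝ) * G.card * t ^ D ≤ (2 + t + t⁻¹) ^ m := by
  have h0 : 0 < t := by linarith
  intro m
  induction m with
  | zero =>
    intro D F G h
    rw [pow_zero]
    rcases F.eq_empty_or_nonempty with hF | ⟨y, hy⟩
    · simp [hF]
    rcases G.eq_empty_or_nonempty with hG | ⟨z, hz⟩
    · simp [hG]
    have h1 := h y hy z hz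
    have h2 : hammingDist y z = 0 := by
      rw [hammingDist_eq_zero]
      exact Subsingleton.elim _ _
    have h3 : D = 0 := by omega
    have h4 : ∀ H : Finset (Fin 0 → ZMod 2), H.card ≤ 1 := fun H => by
      refine (Finset.card_le_univ H).trans ?_
      simp
    have h5 : (F.card : ℝ) ≤ 1 := by exact_mod_cast h4 F
    have h6 : (G.card : ℝ) ≤ 1 := by exact_mod_cast h4 G
    rw [h3, pow_zero, mul_one]
    exact mul_le_one₀ h5 (Nat.cast_nonneg _) h6
  | succ m ih =>
    intro D F G h
    have hd : ∀ a b : ZMod 2, ∀ y ∈ sec F a, ∀ z ∈ sec G b,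
        D ≤ (if a = b then 0 else 1) + hammingDist y z := by
      intro a b y hy z hz
      rw [mem_sec] at hy hz
      rw [← dist_cons]
      exact h _ hy _ hz
    set X : ℝ := (2 + t + t⁻¹) ^ m with hX
    have hX0 : 0 ≤ X := by positivity
    have e00 := ih D (sec F 0) (sec G 0) (fun y hy z hz => by simpa using hd 0 0 y hy z hz)
    have e11 := ih D (sec F 1) (sec G 1) (fun y hy z hz => by simpa using hd 1 1 y hy z hz)
    have e01 := ih (D - 1) (sec F 0) (sec G 1) (fun y hy z hz => by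
      have := hd 0 1 y hy z hz
      rw [if_neg (by decide)] at this
      omega)
    have e10 := ih (D - 1) (sec F 1) (sec G 0) (fun y hy z hz => by
      have := hd 1 0 y hy z hz
      rw [if_neg (by decide)] at this
      omega)
    have hD : t ^ D ≤ t * t ^ (D - 1) := by
      rcases Nat.eq_zero_or_pos D with h1 | h1
      · subst h1
        simpa using ht
      · rw [← pow_succ']
        exact le_of_eq (by congr 1; omega)
    have hcF : (F.card : ℝ) = (sec F 0).card + (sec F 1).card := by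
      rw [card_sec F]
      push_cast
      rfl
    have hcG : (G.card : ℝ) = (sec G 0).card + (sec G 1).card := by
      rw [card_sec G]
      push_cast
      rfl
    rw [hcF, hcG, pow_succ, ← hX]
    have na0 : (0 : ℝ) ≤ (sec F 0).card := Nat.cast_nonneg _
    have na1 : (0 : ℝ) ≤ (sec F 1).card := Nat.cast_nonneg _
    have nb0 : (0 : ℝ) ≤ (sec G 0).card := Nat.cast_nonneg _
    have nb1 : (0 : ℝ) ≤ (sec G 1).card := Nat.cast_nonneg _
    have nt : 0 ≤ t ^ D := by positivity
    generalize ((sec F 0).card : ℝ) = a0 at *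
    generalize ((sec F 1).card : ℝ) = a1 at *
    generalize ((sec G 0).card : ℝ) = b0 at *
    generalize ((sec G 1).card : ℝ) = b1 at *
    have hp : a0 * b1 * t ^ D ≤ t * X := by
      calc a0 * b1 * t ^ D ≤ a0 * b1 * (t * t ^ (D - 1)) :=
            mul_le_mul_of_nonneg_left hD (mul_nonneg na0 nb1)
        _ = t * (a0 * b1 * t ^ (D - 1)) := by ring
        _ ≤ t * X := mul_le_mul_of_nonneg_left e01 h0.le
    have hq : a1 * b0 * t ^ D ≤ t * X := by
      calc a1 * b0 * t ^ D ≤ a1 * b0 * (t * t ^ (D - 1)) :=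
            mul_le_mul_of_nonneg_left hD (mul_nonneg na1 nb0)
        _ = t * (a1 * b0 * t ^ (D - 1)) := by ring
        _ ≤ t * X := mul_le_mul_of_nonneg_left e10 h0.le
    have hpq : a0 * b1 * t ^ D * (a1 * b0 * t ^ D) ≤ X * X := by
      calc a0 * b1 * t ^ D * (a1 * b0 * t ^ D) = (a0 * b0 * t ^ D) * (a1 * b1 * t ^ D) := by ring
        _ ≤ X * X := mul_le_mul e00 e11 (by positivity) hX0
    have key := add_le ht hX0 hp hq hpq
    calc (a0 + a1) * (b0 + b1) * t ^ D
        = a0 * b0 * t ^ D + a1 * b1 * t ^ D + (a0 * b1 * t ^ D + a1 * b0 * t ^ D) := by ring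
      _ ≤ X + X + (t + t⁻¹) * X := by linarith
      _ = X * (2 + t + t⁻¹) := by ring

/-- Two dense sets contain points at a small distance. -/
theorem near {m : ℕ} {w : ℝ} (F G : Finset (Fin m → ZMod 2))
    (hF : (2 : ℝ) ^ m ≤ w * F.card) (hG : (2 : ℝ) ^ m ≤ w * G.card) :
    ∃ y ∈ F, ∃ z ∈ G, (hammingDist y z : ℝ) ≤ Real.sqrt (2 * m * Real.log w) := by
  have h2m : (0 : ℝ) < 2 ^ m := by positivity
  have hF0 : 0 < (F.card : ℝ) := by
    rcases (Nat.cast_nonneg F.card : (0 : ℝ) ≤ F.card).eq_or_lt with h | h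
    · rw [← h, mul_zero] at hF
      linarith
    · exact h
  have hG0 : 0 < (G.card : ℝ) := by
    rcases (Nat.cast_nonneg G.card : (0 : ℝ) ≤ G.card).eq_or_lt with h | h
    · rw [← h, mul_zero] at hG
      linarith
    · exact h
  have hw : 0 < w := by
    by_contra h
    have : w * F.card ≤ 0 := mul_nonpos_of_nonpos_of_nonneg (not_lt.1 h) hF0.le
    linarith
  rcases Nat.eq_zero_or_pos m with hm | hm
  · subst hm
    obtain ⟨y, hy⟩ := Finset.card_pos.1 (by exact_mod_cast hF0 : 0 < F.card)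
    obtain ⟨z, hz⟩ := Finset.card_pos.1 (by exact_mod_cast hG0 : 0 < G.card)
    refine ⟨y, hy, z, hz, ?_⟩
    have h2 : hammingDist y z = 0 := by
      rw [hammingDist_eq_zero]
      exact Subsingleton.elim _ _
    rw [h2, Nat.cast_zero]
    exact Real.sqrt_nonneg _
  by_contra hcon
  push Not at hcon
  set s : ℝ := Real.sqrt (2 * m * Real.log w) with hs
  set D : ℕ := ⌊s⌋₊ + 1 with hD
  have hm0 : (0 : ℝ) < m := by exact_mod_cast hm
  have hsD : s < D := by
    rw [hD]
    push_cast
    exact Nat.lt_floor_add_one s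
  have hdist : ∀ y ∈ F, ∀ z ∈ G, D ≤ hammingDist y z := by
    intro y hy z hz
    have h1 := hcon y hy z hz
    have h2 : ⌊s⌋₊ < hammingDist y z := (Nat.floor_lt (Real.sqrt_nonneg _)).2 h1
    omega
  set c : ℝ := (D : ℝ) / m with hc
  have hc0 : 0 ≤ c := by positivity
  have ht : 1 ≤ Real.exp (2 * c) := Real.one_le_exp (by positivity)
  have key := two_sets ht m D F G hdist
  have hcosh : 2 + Real.exp (2 * c) + (Real.exp (2 * c))⁻¹ = 4 * Real.cosh c ^ 2 := by
    rw [← Real.exp_neg]
    have h1 := Real.cosh_two_mul c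
    have h2 := Real.cosh_sq c
    have h3 := Real.cosh_eq (2 * c)
    nlinarith
  have hb : 2 + Real.exp (2 * c) + (Real.exp (2 * c))⁻¹ ≤ 4 * Real.exp (c ^ 2) := by
    rw [hcosh]
    have h1 := Real.cosh_le_exp_half_sq c
    have h2 : 0 ≤ Real.cosh c := (Real.cosh_pos c).le
    have h3 : Real.exp (c ^ 2) = Real.exp (c ^ 2 / 2) ^ 2 := by
      rw [← Real.exp_nat_mul]
      congr 1
      push_cast
      ring
    rw [h3]
    have h4 := pow_le_pow_left₀ h2 h1 2
    linarith
  have hmc : (m : ℝ) * c = D := by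
    rw [hc]
    field_simp
  have hpow : (2 + Real.exp (2 * c) + (Real.exp (2 * c))⁻¹) ^ m ≤
      4 ^ m * Real.exp (D * c) := by
    refine (pow_le_pow_left₀ (by positivity) hb m).trans (le_of_eq ?_)
    rw [mul_pow, ← Real.exp_nat_mul, ← hmc]
    congr 2
    ring
  have htD : Real.exp (2 * c) ^ D = Real.exp (D * c) * Real.exp (D * c) := by
    rw [← Real.exp_nat_mul, ← Real.exp_add]
    congr 1
    ring
  have h4 : (4 : ℝ) ^ m ≤ (w * F.card) * (w * G.card) := by
    have : (4 : ℝ) ^ m = 2 ^ m * 2 ^ m := by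
      rw [← mul_pow]
      norm_num
    rw [this]
    exact mul_le_mul hF hG h2m.le (by positivity)
  have hE : 0 < Real.exp (D * c) := Real.exp_pos _
  have h5 : (F.card : ℝ) * G.card * (Real.exp (D * c) * Real.exp (D * c)) ≤
      4 ^ m * Real.exp (D * c) := by
    rw [← htD]
    exact key.trans hpow
  have h6 : (F.card : ℝ) * G.card * Real.exp (D * c) ≤ 4 ^ m := by
    refine le_of_mul_le_mul_right ?_ hE
    linarith
  have h7 : Real.exp (D * c) ≤ w * w := by
    have h8 : (F.card : ℝ) * G.card * Real.exp (D * c) ≤ (F.card : ℝ) * G.card * (w * w) := by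
      calc (F.card : ℝ) * G.card * Real.exp (D * c) ≤ 4 ^ m := h6
        _ ≤ (w * F.card) * (w * G.card) := h4
        _ = (F.card : ℝ) * G.card * (w * w) := by ring
    exact le_of_mul_le_mul_left h8 (mul_pos hF0 hG0)
  have h8 : (D : ℝ) * c ≤ 2 * Real.log w := by
    have h9 := (Real.le_log_iff_exp_le (by positivity : 0 < w * w)).2 h7
    rw [Real.log_mul hw.ne' hw.ne'] at h9
    linarith
  have h9 : (D : ℝ) ^ 2 ≤ 2 * m * Real.log w := by
    have : (D : ℝ) ^ 2 = m * (D * c) := by
      rw [← hmc]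
      ring
    rw [this]
    nlinarith
  have h10 : (D : ℝ) ≤ s := by
    rw [hs]
    exact Real.le_sqrt_of_sq_le h9
  linarith

end Pool.Agent.H40.CT
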