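import Pool.Agent.H40.AE.Defs

/-!
# Comparison trees

Hypotheses of learners of parity functions: decision trees of comparisons and of decision lists.
-/

set_option autoImplicit false

namespace Pool.Agent.H40.CT

open Finset Pool.Agent.H40.AE

/-- The value of `f` depends only on the variables in `I`. -/
def On {n : ℕ} {β : Type} (I : Finset (Fin n)) (f : Ex n → β) : Prop :=
  ∀ x y : Ex n, (∀ i ∈ I, x i = y i) → f x = f y

/-- A rule: its test is passed by `x` if both conditions `fst x` and `snd x` hold; `sub` is the
function that is computed then. -/
structure Branch (n : ℕ) where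
  fst : Ex n → Prop
  snd : Ex n → Prop
  sub : Ex n → ZMod 2

open scoped Classical in
/-- A decision list: the value at `x` of the function `sub` of the first rule whose test is passed
by `x`, and `h x` if there is no such rule. -/
noncomputable def first {n : ℕ} (h : Ex n → ZMod 2) : List (Branch n) → Ex n → ZMod 2
  | [], x => h x
  | r :: rs, x => if r.fst x ∧ r.snd x then r.sub x else first h rs x

/-- The cost of a test of rank `d`. -/
def rcost (d : ℕ) : ℕ := (16 * (d + 1) ^ 2) ^ d

/-- The function is computed by a comparison tree of cost at most `w`. The inner nodes are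
comparisons `g x ≤ f x` of two real functions, `f` of the variables in `I` and `g` of the others
(cost `2`); tests of rank `d`, that is, comparisons of `0` and the sum of the products `f x l * g x
l` over `l < d`, where `f` is a function of the variables in `I` and `g` of the others (cost
`(16 (d + 1) ^ 2) ^ d`); nodes that branch according to the values of two functions with `k` values,
`f` of the variables in `I` and `g` of the others (cost `k`); and decision lists with `s ≥ 1` rules,
the test of a rule consisting of a condition on the variables in `I` and a condition on the others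
(cost `2 s`). The cost of the tree is the maximum over the branches of the product of the costs of
the nodes. -/
inductive Tree {n : ℕ} (I : Finset (Fin n)) : ℕ → (Ex n → ZMod 2) → Prop
  | leaf (w : ℕ) (c : ZMod 2) : 1 ≤ w → Tree I w fun _ => c
  | compare (w w' : ℕ) (f g : Ex n → ℝ) (h₁ h₂ : Ex n → ZMod 2) : 2 * w ≤ w' → On I f → On Iᶜ g →
      Tree I w h₁ → Tree I w h₂ → Tree I w' fun x => if g x ≤ f x then h₁ x else h₂ x
  | rank (w w' d : ℕ) (f g : Ex n → Fin d → ℝ) (h₁ h₂ : Ex n → ZMod 2) : rcost d * w ≤ w' →
      On I f → On Iᶜ g → Tree I w h₁ → Tree I w h₂ →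
      Tree I w' fun x => if 0 ≤ ∑ l, f x l * g x l then h₁ x else h₂ x
  | values (w w' k : ℕ) (f g : Ex n → Fin k) (h : Fin k → Fin k → Ex n → ZMod 2) : k * w ≤ w' →
      On I f → On Iᶜ g → (∀ p q, Tree I w (h p q)) → Tree I w' fun x => h (f x) (g x) x
  | list (w w' : ℕ) (rs : List (Branch n)) (h : Ex n → ZMod 2) : rs ≠ [] →
      2 * rs.length * w ≤ w' → (∀ r ∈ rs, On I r.fst ∧ On Iᶜ r.snd) →
      (∀ r ∈ rs, Tree I w r.sub) → Tree I w h → Tree I w' (first h rs)

/-- The integer part of `(n log w) ^ (1/2)`. -/
noncomputable def cost (n w : ℕ) : ℕ := ⌊Real.sqrt (n * Real.log w)⌋₊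

/-- An arbitrary Boolean function `comb` of `K` threshold gates and of `L` threshold gates of
degree `2` and rank at most `d`. The data of a gate of the first kind: real weights and a threshold;
of a gate of the second kind: a linear form `main`, the linear forms `left l` and `right l` (where
`l < d`), and a threshold. -/
structure Net (n K L d : ℕ) where
  weight : Fin K → Fin n → ℝ
  thr : Fin K → ℝ
  main : Fin L → Fin n → ℝ
  left : Fin L → Fin d → Fin n → ℝ
  right : Fin L → Fin d → Fin n → ℝ
  bound : Fin L → ℝ
  comb : (Fin K → Prop) → (Fin L → Prop) → ZMod 2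

/-- The function given by the gates: the gate `q` of the first kind tests whether the sum of the
weights of the bits of `x` that are `1` is at least `thr q`; the gate `q` of the second kind tests
whether the value at `x` of the polynomial `main q + ∑ l < d, left q l * right q l` is at least
`bound q`. -/
noncomputable def Net.val {n K L d : ℕ} (g : Net n K L d) (x : Ex n) : ZMod 2 :=
  g.comb (fun q => g.thr q ≤ lin (g.weight q) x) fun q =>
    g.bound q ≤ lin (g.main q) x + ∑ l, lin (g.left q l) x * lin (g.right q l) x

end Pool.Agent.H40.CT
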