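import Mathlib

/-!
# An approximate form of Forster's theorem

For a finite family of vectors `f y` in `ℝ ^ d` that is not concentrated on a subspace there is an
invertible matrix `A` such that the vectors `A f y` are not concentrated near a hyperplane.
-/

set_option autoImplicit false

namespace Pool.Agent.H40.CT

open Finset Matrix

variable {α : Type} {d : ℕ}

/-- The potential. -/
noncomputable def phi (f : α → Fin d → ℝ) (F : Finset α) (A : Matrix (Fin d) (Fin d) ℝ) : ℝ :=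
  ∑ y ∈ F, Real.log ((A *ᵥ f y) ⬝ᵥ (A *ᵥ f y)) - (F.card : ℝ) / d * Real.log (A.det ^ 2)

/-- The potential of `F` is bounded below. -/
def Bd (f : α → Fin d → ℝ) (F : Finset α) : Prop :=
  (∀ y ∈ F, f y ≠ 0) ∧ ∃ c : ℝ, ∀ A : Matrix (Fin d) (Fin d) ℝ, A.det ≠ 0 → c ≤ phi f F A

theorem bd_empty (f : α → Fin d → ℝ) : Bd f ∅ := by
  refine ⟨fun y hy => absurd hy (Finset.notMem_empty y), 0, fun A _ => ?_⟩
  simp [phi]

theorem bd_union [DecidableEq α] (f : α → Fin d → ℝ) {F G : Finset α} (hFG : Disjoint F G)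
    (hF : Bd f F) (hG : Bd f G) : Bd f (F ∪ G) := by
  obtain ⟨h1, c1, h1'⟩ := hF
  obtain ⟨h2, c2, h2'⟩ := hG
  refine ⟨fun y hy => (mem_union.1 hy).elim (h1 y) (h2 y), c1 + c2, fun A hA => ?_⟩
  have e1 := h1' A hA
  have e2 := h2' A hA
  have e3 : phi f (F ∪ G) A = phi f F A + phi f G A := by
    unfold phi
    rw [Finset.sum_union hFG, Finset.card_union_of_disjoint hFG]
    push_cast
    ring
  rw [e3]
  linarith

/-- The crude Hadamard inequality. -/
theorem abs_det_le (Y : Matrix (Fin d) (Fin d) ℝ) :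
    |Y.det| ≤ d.factorial * ∏ j, Real.sqrt (∑ i, Y i j ^ 2) := by
  have h1 : ∀ σ : Equiv.Perm (Fin d), |(Equiv.Perm.sign σ : ℤˣ) • ∏ i, Y (σ i) i| ≤
      ∏ j, Real.sqrt (∑ i, Y i j ^ 2) := by
    intro σ
    have h2 : |(Equiv.Perm.sign σ : ℤˣ) • ∏ i, Y (σ i) i| = ∏ i, |Y (σ i) i| := by
      rw [← Finset.abs_prod]
      rcases Int.units_eq_one_or (Equiv.Perm.sign σ) with h | h
      · rw [h, one_smul]
      · rw [h, Units.neg_smul, one_smul, abs_neg]
    rw [h2]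
    refine Finset.prod_le_prod (fun i _ => abs_nonneg _) fun i _ => ?_
    refine Real.le_sqrt_of_sq_le ?_
    rw [sq_abs]
    exact Finset.single_le_sum (f := fun k => Y k i ^ 2) (fun k _ => sq_nonneg _) (mem_univ _)
  rw [Matrix.det_apply]
  refine (Finset.abs_sum_le_sum_abs _ _).trans ?_
  refine (Finset.sum_le_sum fun σ _ => h1 σ).trans (le_of_eq ?_)
  rw [Finset.sum_const, Finset.card_univ, Fintype.card_perm, Fintype.card_fin, nsmul_eq_mul]

theorem dot_pos {A : Matrix (Fin d) (Fin d) ℝ} (hA : A.det ≠ 0) {x : Fin d → ℝ} (hx : x ≠ 0) :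
    0 < (A *ᵥ x) ⬝ᵥ (A *ᵥ x) := by
  have h1 : (A *ᵥ x) ≠ 0 := fun h => hx (Matrix.eq_zero_of_mulVec_eq_zero hA h)
  have h2 : 0 ≤ (A *ᵥ x) ⬝ᵥ (A *ᵥ x) := Finset.sum_nonneg fun i _ => mul_self_nonneg _
  rcases h2.eq_or_lt with h3 | h3
  · exact absurd (dotProduct_self_eq_zero.1 h3.symm) h1
  · exact h3

theorem bd_basis [DecidableEq α] (f : α → Fin d → ℝ) (hd : 0 < d) (b : Fin d → α)
    (hb : LinearIndependent ℝ fun i => f (b i)) : Bd f (univ.image b) := by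
  have hinj : Function.Injective b := by
    intro i j hij
    exact hb.injective (by simp only [hij])
  have hcard : (univ.image b).card = d := by
    rw [Finset.card_image_of_injective _ hinj, Finset.card_univ, Fintype.card_fin]
  set X : Matrix (Fin d) (Fin d) ℝ := Matrix.of fun i j => f (b j) i with hX
  have hXdet : X.det ≠ 0 := by
    have h1 : LinearIndependent ℝ X.col := hb
    have h2 := Matrix.linearIndependent_cols_iff_isUnit.1 h1
    exact ((Matrix.isUnit_iff_isUnit_det _).1 h2).ne_zero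
  have hd0 : (d : ℝ) ≠ 0 := by exact_mod_cast hd.ne'
  have hfac : (0 : ℝ) < d.factorial := by exact_mod_cast d.factorial_pos
  refine ⟨?_, Real.log (X.det ^ 2) - 2 * Real.log d.factorial, fun A hA => ?_⟩
  · intro y hy
    obtain ⟨i, -, rfl⟩ := mem_image.1 hy
    exact hb.ne_zero i
  · have hpos : ∀ j, 0 < (A *ᵥ f (b j)) ⬝ᵥ (A *ᵥ f (b j)) := fun j => dot_pos hA (hb.ne_zero j)
    have h1 := abs_det_le (A * X)
    have h2 : ∀ j, (∑ i, (A * X) i j ^ 2) = (A *ᵥ f (b j)) ⬝ᵥ (A *ᵥ f (b j)) := by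
      intro j
      unfold dotProduct
      refine Finset.sum_congr rfl fun i _ => ?_
      rw [sq]
      rfl
    simp only [h2] at h1
    have h3 : Real.log |(A * X).det| ≤
        Real.log (d.factorial * ∏ j, Real.sqrt ((A *ᵥ f (b j)) ⬝ᵥ (A *ᵥ f (b j)))) := by
      refine Real.log_le_log (abs_pos.2 ?_) h1
      rw [Matrix.det_mul]
      exact mul_ne_zero hA hXdet
    rw [Real.log_mul hfac.ne' (Finset.prod_ne_zero_iff.2 fun j _ =>
      (Real.sqrt_pos.2 (hpos j)).ne'), Real.log_prod (fun j _ =>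
      (Real.sqrt_pos.2 (hpos j)).ne'), Real.log_abs, Matrix.det_mul,
      Real.log_mul hA hXdet] at h3
    have h4 : (∑ j, Real.log (Real.sqrt ((A *ᵥ f (b j)) ⬝ᵥ (A *ᵥ f (b j))))) =
        (∑ j, Real.log ((A *ᵥ f (b j)) ⬝ᵥ (A *ᵥ f (b j)))) / 2 := by
      rw [Finset.sum_div]
      refine Finset.sum_congr rfl fun j _ => ?_
      rw [Real.log_sqrt (hpos j).le]
    rw [h4] at h3
    have h5 : phi f (univ.image b) A = (∑ j, Real.log ((A *ᵥ f (b j)) ⬝ᵥ (A *ᵥ f (b j)))) -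
        Real.log (A.det ^ 2) := by
      unfold phi
      rw [hcard, div_self hd0, one_mul, Finset.sum_image fun i _ j _ h => hinj h]
    rw [h5, Real.log_pow, Real.log_pow]
    push_cast
    linarith

/-- Either many vectors lie in a proper subspace, or the potential of many vectors is bounded. -/
theorem exists_bd (f : α → Fin d → ℝ) (hd : 0 < d) (F : Finset α) :
    (∃ R ⊆ F, F.card ≤ 2 * R.card ∧ ∃ k < d, ∃ (c : α → Fin k → ℝ) (e : Fin k → Fin d → ℝ),
      ∀ y ∈ R, f y = ∑ i, c y i • e i) ∨ ∃ F₁ ⊆ F, F.card ≤ 2 * F₁.card ∧ Bd f F₁ := by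
  classical
  obtain ⟨F₁, hF₁, hmax⟩ := Finset.exists_max_image (F.powerset.filter fun H => Bd f H)
    (fun H => H.card) ⟨∅, mem_filter.2 ⟨Finset.empty_mem_powerset F, bd_empty f⟩⟩
  rw [mem_filter, Finset.mem_powerset] at hF₁
  by_cases hc : F.card ≤ 2 * F₁.card
  · exact Or.inr ⟨F₁, hF₁.1, hc, hF₁.2⟩
  left
  refine ⟨F \ F₁, sdiff_subset, ?_, ?_⟩
  · rw [Finset.card_sdiff_of_subset hF₁.1]
    omega
  set s : Set (Fin d → ℝ) := f '' (F \ F₁ : Finset α) with hs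
  obtain ⟨k, e, hkd, he1, he2, he3⟩ : ∃ (k : ℕ) (e : Fin k → Fin d → ℝ), k ≤ d ∧
      (∀ i, e i ∈ s) ∧ Submodule.span ℝ (Set.range e) = Submodule.span ℝ s ∧
        LinearIndependent ℝ e := by
    obtain ⟨e, he1, he2, he3⟩ := Submodule.exists_fun_fin_finrank_span_eq ℝ s
    refine ⟨_, e, ?_, he1, he2, he3⟩
    have := Submodule.finrank_le (Submodule.span ℝ s)
    rw [Module.finrank_fin_fun] at this
    exact this
  have hlt : k < d := by
    by_contra hkd'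
    have hkd2 : k = d := by omega
    have hsel : ∀ i, ∃ y ∈ F \ F₁, f y = e i := by
      intro i
      obtain ⟨y, hy, hye⟩ := he1 i
      exact ⟨y, hy, hye⟩
    choose b hb1 hb2 using hsel
    have hbd : Bd f (univ.image fun i : Fin d => b (Fin.cast hkd2.symm i)) := by
      refine bd_basis f hd _ ?_
      have h1 : (fun i : Fin d => f (b (Fin.cast hkd2.symm i))) =
          e ∘ Fin.cast hkd2.symm := by
        funext i
        exact hb2 _
      rw [h1]
      exact he3.comp _ (Fin.cast_injective _)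
    have hdisj : Disjoint F₁ (univ.image fun i : Fin d => b (Fin.cast hkd2.symm i)) := by
      rw [Finset.disjoint_left]
      intro y hy hy'
      obtain ⟨i, -, rfl⟩ := mem_image.1 hy'
      exact (mem_sdiff.1 (hb1 _)).2 hy
    have hsub : F₁ ∪ (univ.image fun i : Fin d => b (Fin.cast hkd2.symm i)) ⊆ F := by
      refine Finset.union_subset hF₁.1 fun y hy => ?_
      obtain ⟨i, -, rfl⟩ := mem_image.1 hy
      exact (mem_sdiff.1 (hb1 _)).1
    have h2 := hmax _ (mem_filter.2 ⟨Finset.mem_powerset.2 hsub, bd_union f hdisj hF₁.2 hbd⟩)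
    rw [Finset.card_union_of_disjoint hdisj] at h2
    have h3 : 0 < (univ.image fun i : Fin d => b (Fin.cast hkd2.symm i)).card := by
      rw [Finset.card_pos]
      exact ⟨_, mem_image_of_mem _ (mem_univ (⟨0, hd⟩ : Fin d))⟩
    omega
  have hcoef : ∀ y, ∃ c : Fin k → ℝ, y ∈ F \ F₁ → ∑ i, c i • e i = f y := by
    intro y
    by_cases hy : y ∈ F \ F₁
    · have h1 : f y ∈ Submodule.span ℝ (Set.range e) := by
        rw [he2]
        exact Submodule.subset_span ⟨y, hy, rfl⟩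
      obtain ⟨c, hc⟩ := (Submodule.mem_span_range_iff_exists_fun ℝ).1 h1
      exact ⟨c, fun _ => hc⟩
    · exact ⟨0, fun h => absurd h hy⟩
  choose c hc' using hcoef
  exact ⟨k, hlt, c, e, fun y hy => (hc' y hy).symm⟩

/-- A nearly optimal matrix. -/
theorem exists_near_min (f : α → Fin d → ℝ) (F : Finset α) (hF : Bd f F) {ε : ℝ} (hε : 0 < ε) :
    ∃ A : Matrix (Fin d) (Fin d) ℝ, A.det ≠ 0 ∧
      ∀ B : Matrix (Fin d) (Fin d) ℝ, B.det ≠ 0 → phi f F A < phi f F B + ε := by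
  obtain ⟨-, c, hc⟩ := hF
  set S : Set ℝ := {t | ∃ A : Matrix (Fin d) (Fin d) ℝ, A.det ≠ 0 ∧ phi f F A = t} with hS
  have hbdd : BddBelow S := by
    refine ⟨c, ?_⟩
    rintro t ⟨A, hA, rfl⟩
    exact hc A hA
  have hne : S.Nonempty := ⟨_, 1, by rw [Matrix.det_one]; exact one_ne_zero, rfl⟩
  obtain ⟨t, ⟨A, hA, rfl⟩, ht⟩ := exists_lt_of_csInf_lt hne (show sInf S < sInf S + ε by linarith)
  refine ⟨A, hA, fun B hB => ?_⟩
  have := csInf_le hbdd (show phi f F B ∈ S from ⟨B, hB, rfl⟩)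
  linarith

/-- The vectors are not concentrated near a hyperplane. -/
theorem spread (f : α → Fin d → ℝ) (hd : 0 < d) (F : Finset α) (hne : F.Nonempty) (hF : Bd f F) :
    ∃ A : Matrix (Fin d) (Fin d) ℝ, A.det ≠ 0 ∧ ∀ v : Fin d → ℝ, v ⬝ᵥ v = 1 →
      (F.card : ℝ) / (2 * d) ≤
        ∑ y ∈ F, (v ⬝ᵥ (A *ᵥ f y)) ^ 2 / ((A *ᵥ f y) ⬝ᵥ (A *ᵥ f y)) := by
  have hd0 : (0 : ℝ) < d := by exact_mod_cast hd
  have hc0 : (0 : ℝ) < F.card := by exact_mod_cast Finset.card_pos.2 hne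
  obtain ⟨A, hA, hmin⟩ := exists_near_min f F hF (ε := F.card / (30 * d)) (by positivity)
  refine ⟨A, hA, fun v hv => ?_⟩
  by_contra hcon
  rw [not_le] at hcon
  set B : Matrix (Fin d) (Fin d) ℝ :=
    (1 + Matrix.replicateCol Unit ((1 / 2 : ℝ) • v) * Matrix.replicateRow Unit v) * A with hB
  have hdet1 : (1 + Matrix.replicateCol Unit ((1 / 2 : ℝ) • v) *
      Matrix.replicateRow Unit v).det = 3 / 2 := by
    rw [Matrix.det_one_add_replicateCol_mul_replicateRow, dotProduct_smul, hv, smul_eq_mul]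
    norm_num
  have hdetB : B.det = 3 / 2 * A.det := by
    rw [hB, Matrix.det_mul, hdet1]
  have hB0 : B.det ≠ 0 := by
    rw [hdetB]
    exact mul_ne_zero (by norm_num) hA
  have hmul : ∀ x, B *ᵥ x = (A *ᵥ x) + ((1 / 2 : ℝ) * (v ⬝ᵥ (A *ᵥ x))) • v := by
    intro x
    rw [hB, ← Matrix.mulVec_mulVec, Matrix.add_mulVec, Matrix.one_mulVec]
    congr 1
    rw [← Matrix.mulVec_mulVec]
    funext i
    simp [Matrix.mulVec, dotProduct, Matrix.replicateCol, Matrix.replicateRow]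
    ring
  have hsq : ∀ x, (B *ᵥ x) ⬝ᵥ (B *ᵥ x) =
      (A *ᵥ x) ⬝ᵥ (A *ᵥ x) + 5 / 4 * (v ⬝ᵥ (A *ᵥ x)) ^ 2 := by
    intro x
    rw [hmul]
    simp only [add_dotProduct, dotProduct_add, smul_dotProduct, dotProduct_smul, hv, smul_eq_mul]
    rw [dotProduct_comm (A *ᵥ x) v]
    ring
  have hlog : ∀ y ∈ F, Real.log ((B *ᵥ f y) ⬝ᵥ (B *ᵥ f y)) ≤
      Real.log ((A *ᵥ f y) ⬝ᵥ (A *ᵥ f y)) +
        5 / 4 * ((v ⬝ᵥ (A *ᵥ f y)) ^ 2 / ((A *ᵥ f y) ⬝ᵥ (A *ᵥ f y))) := by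
    intro y hy
    have hp := dot_pos hA (hF.1 y hy)
    set N := (A *ᵥ f y) ⬝ᵥ (A *ᵥ f y) with hN
    have h1 : (B *ᵥ f y) ⬝ᵥ (B *ᵥ f y) = N * (1 + 5 / 4 * ((v ⬝ᵥ (A *ᵥ f y)) ^ 2 / N)) := by
      rw [hsq, ← hN]
      field_simp
    have h2 : 0 ≤ (v ⬝ᵥ (A *ᵥ f y)) ^ 2 / N := by positivity
    have h3 : 0 < 1 + 5 / 4 * ((v ⬝ᵥ (A *ᵥ f y)) ^ 2 / N) := by positivity
    rw [h1, Real.log_mul hp.ne' h3.ne']
    have := Real.log_le_sub_one_of_pos h3
    linarith
  have h5 := hmin B hB0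
  have h6 : phi f F B ≤ phi f F A + 5 / 4 *
      (∑ y ∈ F, (v ⬝ᵥ (A *ᵥ f y)) ^ 2 / ((A *ᵥ f y) ⬝ᵥ (A *ᵥ f y))) -
        (F.card : ℝ) / d * Real.log ((3 / 2 : ℝ) ^ 2) := by
    unfold phi
    rw [hdetB, mul_pow, Real.log_mul (by norm_num) (pow_ne_zero _ hA)]
    have h7 := Finset.sum_le_sum hlog
    rw [Finset.sum_add_distrib, ← Finset.mul_sum] at h7
    nlinarith
  have h8 : (2 / 3 : ℝ) ≤ Real.log ((3 / 2 : ℝ) ^ 2) := by
    rw [Real.log_pow]
    have := Real.one_sub_inv_le_log_of_pos (show (0 : ℝ) < 3 / 2 by norm_num)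
    norm_num at this ⊢
    linarith
  have h9 : (F.card : ℝ) / d * (2 / 3) ≤ (F.card : ℝ) / d * Real.log ((3 / 2 : ℝ) ^ 2) :=
    mul_le_mul_of_nonneg_left h8 (by positivity)
  have h10 : (F.card : ℝ) / (2 * d) = (F.card : ℝ) / d * (1 / 2) := by
    field_simp
  have h11 : (F.card : ℝ) / (30 * d) = (F.card : ℝ) / d * (1 / 30) := by
    field_simp
  have h12 : 0 < (F.card : ℝ) / d := by positivity
  rw [h10] at hcon
  rw [h11] at h5
  linarith

end Pool.Agent.H40.CT
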