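import Pool.Agent.H40.CT.Rank

/-!
# Comparison trees are constant on large rectangles
-/

set_option autoImplicit false

namespace Pool.Agent.H40.CT

open Finset Matrix Pool.Agent.H40.AE

/-- The example with the bits `y` at the variables `a u` and the bits `z` at the variables
`b u`. -/
def mk {n m : ℕ} (a b : Fin m → Fin n) (y z : Fin m → ZMod 2) : Ex n := fun i =>
  (∑ u, if a u = i then y u else 0) + ∑ u, if b u = i then z u else 0

theorem mk_a {n m : ℕ} {a b : Fin m → Fin n} (ha : Function.Injective a)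
    (hab : ∀ u v, a u ≠ b v) (y z : Fin m → ZMod 2) (u : Fin m) : mk a b y z (a u) = y u := by
  unfold mk
  have h1 : (∑ v, if b v = a u then z v else 0) = 0 :=
    Finset.sum_eq_zero fun v _ => if_neg fun h => hab u v h.symm
  have h2 : (∑ v, if a v = a u then y v else 0) = y u := by
    simp [ha.eq_iff]
  rw [h1, h2, add_zero]

theorem mk_b {n m : ℕ} {a b : Fin m → Fin n} (hb : Function.Injective b)
    (hab : ∀ u v, a u ≠ b v) (y z : Fin m → ZMod 2) (u : Fin m) : mk a b y z (b u) = z u := by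
  unfold mk
  have h1 : (∑ v, if a v = b u then y v else 0) = 0 :=
    Finset.sum_eq_zero fun v _ => if_neg fun h => hab v u h
  have h2 : (∑ v, if b v = b u then z v else 0) = z u := by
    simp [hb.eq_iff]
  rw [h1, h2, zero_add]

theorem mk_zero {n m : ℕ} (a b : Fin m → Fin n) (y z : Fin m → ZMod 2) (i : Fin n)
    (h1 : ∀ u, a u ≠ i) (h2 : ∀ u, b u ≠ i) : mk a b y z i = 0 := by
  unfold mk
  rw [Finset.sum_eq_zero fun v _ => if_neg (h1 v), Finset.sum_eq_zero fun v _ => if_neg (h2 v),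
    add_zero]

theorem on_fst {n m : ℕ} {β : Type} {I : Finset (Fin n)} {a b : Fin m → Fin n}
    (hb : ∀ u, b u ∉ I) {f : Ex n → β} (hf : On I f) (y z : Fin m → ZMod 2) :
    f (mk a b y z) = f (mk a b y 0) := by
  refine hf _ _ fun i hi => ?_
  have h1 : ∀ v, b v ≠ i := fun v h => hb v (by rw [h]; exact hi)
  simp [mk, h1]

theorem on_snd {n m : ℕ} {β : Type} {I : Finset (Fin n)} {a b : Fin m → Fin n}
    (ha : ∀ u, a u ∈ I) {f : Ex n → β} (hf : On Iᶜ f) (y z : Fin m → ZMod 2) :
    f (mk a b y z) = f (mk a b 0 z) := by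
  refine hf _ _ fun i hi => ?_
  rw [mem_compl] at hi
  have h1 : ∀ v, a v ≠ i := fun v h => hi (by rw [← h]; exact ha v)
  simp [mk, h1]

/-- Every rectangle contains a rectangle on which `h` is constant and that is smaller at most by the
factor `w` in both directions. -/
def Rect {n m : ℕ} (a b : Fin m → Fin n) (w : ℕ) (h : Ex n → ZMod 2) : Prop :=
  ∀ F G : Finset (Fin m → ZMod 2), F.Nonempty → G.Nonempty → ∃ F' ⊆ F, ∃ G' ⊆ G,
    F.card ≤ w * F'.card ∧ G.card ≤ w * G'.card ∧ ∃ c, ∀ y ∈ F', ∀ z ∈ G', h (mk a b y z) = c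

/-- A median. -/
theorem median {α : Type} (F : Finset α) (hF : F.Nonempty) (f : α → ℝ) :
    ∃ p : ℝ, F.card ≤ 2 * (F.filter fun y => p ≤ f y).card ∧
      F.card ≤ 2 * (F.filter fun y => f y ≤ p).card := by
  classical
  set T := (F.image f).filter fun v => F.card ≤ 2 * (F.filter fun y => v ≤ f y).card with hT
  have hne : (F.image f).Nonempty := hF.image f
  have hT0 : T.Nonempty := by
    refine ⟨(F.image f).min' hne, ?_⟩
    rw [hT, mem_filter]
    refine ⟨Finset.min'_mem _ _, ?_⟩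
    have : (F.filter fun y => (F.image f).min' hne ≤ f y) = F := by
      rw [Finset.filter_eq_self]
      intro y hy
      exact Finset.min'_le _ _ (mem_image_of_mem f hy)
    rw [this]
    omega
  refine ⟨T.max' hT0, ?_, ?_⟩
  · exact (mem_filter.1 (T.max'_mem hT0)).2
  · by_contra hcon
    rw [not_le] at hcon
    set p := T.max' hT0
    have h1 : (F.filter fun y => f y ≤ p).card + (F.filter fun y => ¬ f y ≤ p).card = F.card :=
      Finset.card_filter_add_card_filter_not _
    have h2 : (F.filter fun y => ¬ f y ≤ p).Nonempty := by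
      rw [← Finset.card_pos]
      omega
    obtain ⟨y₀, hy₀, hmin⟩ := Finset.exists_min_image _ f h2
    rw [mem_filter] at hy₀
    have h3 : f y₀ ∈ T := by
      rw [hT, mem_filter]
      refine ⟨mem_image_of_mem f hy₀.1, ?_⟩
      have h4 : (F.filter fun y => ¬ f y ≤ p) ⊆ F.filter fun y => f y₀ ≤ f y := by
        intro y hy
        exact mem_filter.2 ⟨(mem_filter.1 hy).1, hmin y hy⟩
      have := Finset.card_le_card h4
      omega
    exact hy₀.2 (T.le_max' _ h3)

theorem rect_leaf {n m : ℕ} (a b : Fin m → Fin n) (w : ℕ) (c : ZMod 2) (hw : 1 ≤ w) :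
    Rect a b w fun _ => c := by
  intro F G _ _
  exact ⟨F, Subset.refl _, G, Subset.refl _, Nat.le_mul_of_pos_left _ hw,
    Nat.le_mul_of_pos_left _ hw, c, fun _ _ _ _ => rfl⟩

theorem rect_compare {n m : ℕ} {I : Finset (Fin n)} {a b : Fin m → Fin n} (ha : ∀ u, a u ∈ I)
    (hb : ∀ u, b u ∉ I) {w w' : ℕ} {f g : Ex n → ℝ} {h₁ h₂ : Ex n → ZMod 2} (hw : 2 * w ≤ w')
    (hf : On I f) (hg : On Iᶜ g) (i₁ : Rect a b w h₁) (i₂ : Rect a b w h₂) :
    Rect a b w' fun x => if g x ≤ f x then h₁ x else h₂ x := by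
  intro F G hF hG
  obtain ⟨p, hp1, hp2⟩ := median F hF fun y => f (mk a b y 0)
  obtain ⟨q, hq1, hq2⟩ := median G hG fun z => g (mk a b 0 z)
  have pos : ∀ {A B : Finset (Fin m → ZMod 2)}, A.Nonempty → A.card ≤ 2 * B.card →
      B.Nonempty := by
    intro A B hA h
    rw [← Finset.card_pos] at hA ⊢
    omega
  have fin : ∀ {A B C : Finset (Fin m → ZMod 2)}, A.card ≤ 2 * B.card → B.card ≤ w * C.card →
      A.card ≤ w' * C.card := by
    intro A B C h1 h2
    calc A.card ≤ 2 * B.card := h1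
      _ ≤ 2 * (w * C.card) := Nat.mul_le_mul_left _ h2
      _ = (2 * w) * C.card := by ring
      _ ≤ w' * C.card := Nat.mul_le_mul_right _ hw
  rcases le_or_gt q p with hqp | hqp
  · obtain ⟨F', hF', G', hG', e1, e2, c, hc⟩ := i₁ _ _ (pos hF hp1) (pos hG hq2)
    refine ⟨F', hF'.trans (filter_subset _ _), G', hG'.trans (filter_subset _ _), fin hp1 e1,
      fin hq2 e2, c, fun y hy z hz => ?_⟩
    have k1 := (mem_filter.1 (hF' hy)).2
    have k2 := (mem_filter.1 (hG' hz)).2
    simp only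
    rw [if_pos, hc y hy z hz]
    rw [on_fst hb hf, on_snd ha hg]
    exact (k2.trans hqp).trans k1
  · obtain ⟨F', hF', G', hG', e1, e2, c, hc⟩ := i₂ _ _ (pos hF hp2) (pos hG hq1)
    refine ⟨F', hF'.trans (filter_subset _ _), G', hG'.trans (filter_subset _ _), fin hp2 e1,
      fin hq1 e2, c, fun y hy z hz => ?_⟩
    have k1 := (mem_filter.1 (hF' hy)).2
    have k2 := (mem_filter.1 (hG' hz)).2
    simp only
    rw [if_neg, hc y hy z hz]
    rw [on_fst hb hf, on_snd ha hg, not_le]
    exact (k1.trans_lt hqp).trans_le k2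

theorem rcost_pos (d : ℕ) : 0 < rcost d := by
  unfold rcost
  positivity

theorem rect_rank {n m : ℕ} {I : Finset (Fin n)} {a b : Fin m → Fin n} (ha : ∀ u, a u ∈ I)
    (hb : ∀ u, b u ∉ I) {w w' d : ℕ} {f g : Ex n → Fin d → ℝ} {h₁ h₂ : Ex n → ZMod 2}
    (hw : rcost d * w ≤ w') (hf : On I f) (hg : On Iᶜ g) (i₁ : Rect a b w h₁)
    (i₂ : Rect a b w h₂) :
    Rect a b w' fun x => if 0 ≤ ∑ l, f x l * g x l then h₁ x else h₂ x := by
  intro F G hF hG
  obtain ⟨F₁, hF₁, G₁, hG₁, hF1, hG1, hh⟩ := rank_rect d F G hF hG (fun y => f (mk a b y 0))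
    fun z => g (mk a b 0 z)
  have pos : ∀ {A B : Finset (Fin m → ZMod 2)}, A.Nonempty → A.card ≤ rcost d * B.card →
      B.Nonempty := by
    intro A B hA h
    rw [← Finset.card_pos] at hA ⊢
    rcases Nat.eq_zero_or_pos B.card with h2 | h2
    · rw [h2, mul_zero] at h
      omega
    · exact h2
  have fin : ∀ {A B C : Finset (Fin m → ZMod 2)}, A.card ≤ rcost d * B.card →
      B.card ≤ w * C.card → A.card ≤ w' * C.card := by
    intro A B C h1 h2
    calc A.card ≤ rcost d * B.card := h1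
      _ ≤ rcost d * (w * C.card) := Nat.mul_le_mul_left _ h2
      _ = (rcost d * w) * C.card := by ring
      _ ≤ w' * C.card := Nat.mul_le_mul_right _ hw
  have hsum : ∀ y z, (∑ l, f (mk a b y z) l * g (mk a b y z) l) =
      f (mk a b y 0) ⬝ᵥ g (mk a b 0 z) := by
    intro y z
    rw [on_fst hb hf, on_snd ha hg]
    rfl
  rcases hh with hh | hh
  · obtain ⟨F', hF', G', hG', e1, e2, c, hc⟩ := i₁ _ _ (pos hF hF1) (pos hG hG1)
    refine ⟨F', hF'.trans hF₁, G', hG'.trans hG₁, fin hF1 e1, fin hG1 e2, c,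
      fun y hy z hz => ?_⟩
    simp only
    rw [hsum, if_pos (hh y (hF' hy) z (hG' hz)), hc y hy z hz]
  · obtain ⟨F', hF', G', hG', e1, e2, c, hc⟩ := i₂ _ _ (pos hF hF1) (pos hG hG1)
    refine ⟨F', hF'.trans hF₁, G', hG'.trans hG₁, fin hF1 e1, fin hG1 e2, c,
      fun y hy z hz => ?_⟩
    simp only
    rw [hsum, if_neg (not_le.2 (hh y (hF' hy) z (hG' hz))), hc y hy z hz]

/-- A popular value. -/
theorem popular {α : Type} (F : Finset α) {a : ℕ} (f : α → Fin a) (ha : 0 < a) :
    ∃ p, F.card ≤ a * (F.filter fun y => f y = p).card := by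
  classical
  by_contra hcon
  push Not at hcon
  have h1 := Finset.card_eq_sum_card_fiberwise (s := F) (t := (univ : Finset (Fin a)))
    (f := f) (fun x _ => by simp)
  have h2 : a * F.card = ∑ b : Fin a, a * (F.filter fun x => f x = b).card := by
    rw [← Finset.mul_sum, ← h1]
  have h3 : ∑ b : Fin a, a * (F.filter fun x => f x = b).card < ∑ _b : Fin a, F.card :=
    Finset.sum_lt_sum_of_nonempty ⟨⟨0, ha⟩, mem_univ _⟩ fun p _ => hcon p
  rw [Finset.sum_const, Finset.card_univ, Fintype.card_fin, smul_eq_mul] at h3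
  omega

theorem rect_values {n m : ℕ} {I : Finset (Fin n)} {a b : Fin m → Fin n} (ha : ∀ u, a u ∈ I)
    (hb : ∀ u, b u ∉ I) {w w' k : ℕ} {f g : Ex n → Fin k} {h : Fin k → Fin k → Ex n → ZMod 2}
    (hw : k * w ≤ w') (hf : On I f) (hg : On Iᶜ g) (ih : ∀ p q, Rect a b w (h p q)) :
    Rect a b w' fun x => h (f x) (g x) x := by
  intro F G hF hG
  have hk : 0 < k := (f 0).pos
  obtain ⟨p, hp⟩ := popular F (fun y => f (mk a b y 0)) hk
  obtain ⟨q, hq⟩ := popular G (fun z => g (mk a b 0 z)) hk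
  have pos : ∀ {A B : Finset (Fin m → ZMod 2)}, A.Nonempty → A.card ≤ k * B.card →
      B.Nonempty := by
    intro A B hA h
    rw [← Finset.card_pos] at hA ⊢
    rcases Nat.eq_zero_or_pos B.card with h2 | h2
    · rw [h2, mul_zero] at h
      omega
    · exact h2
  have fin : ∀ {A B C : Finset (Fin m → ZMod 2)}, A.card ≤ k * B.card → B.card ≤ w * C.card →
      A.card ≤ w' * C.card := by
    intro A B C h1 h2
    calc A.card ≤ k * B.card := h1
      _ ≤ k * (w * C.card) := Nat.mul_le_mul_left _ h2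
      _ = (k * w) * C.card := by ring
      _ ≤ w' * C.card := Nat.mul_le_mul_right _ hw
  obtain ⟨F', hF', G', hG', e1, e2, c, hc⟩ := ih p q _ _ (pos hF hp) (pos hG hq)
  refine ⟨F', hF'.trans (filter_subset _ _), G', hG'.trans (filter_subset _ _), fin hp e1,
    fin hq e2, c, fun y hy z hz => ?_⟩
  have k1 := (mem_filter.1 (hF' hy)).2
  have k2 := (mem_filter.1 (hG' hz)).2
  have k3 : f (mk a b y z) = p := (on_fst hb hf y z).trans k1
  have k4 : g (mk a b y z) = q := (on_snd ha hg y z).trans k2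
  simp only [k3, k4]
  exact hc y hy z hz

theorem list_aux {n m : ℕ} {I : Finset (Fin n)} {a b : Fin m → Fin n} (ha : ∀ u, a u ∈ I)
    (hb : ∀ u, b u ∉ I) {w s : ℕ} (hs : 1 ≤ s) (h : Ex n → ZMod 2) (ih : Rect a b w h) (NF NG : ℕ)
    (hNF : 0 < NF) (hNG : 0 < NG) : ∀ rs : List (Branch n),
      (∀ r ∈ rs, On I r.fst ∧ On Iᶜ r.snd) → (∀ r ∈ rs, Rect a b w r.sub) →
      ∀ F G : Finset (Fin m → ZMod 2), (s + rs.length) * NF ≤ 2 * s * F.card →
        (s + rs.length) * NG ≤ 2 * s * G.card → ∃ F' ⊆ F, ∃ G' ⊆ G,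
          NF ≤ 2 * s * w * F'.card ∧ NG ≤ 2 * s * w * G'.card ∧
            ∃ c, ∀ y ∈ F', ∀ z ∈ G', first h rs (mk a b y z) = c := by
  classical
  intro rs
  induction rs with
  | nil =>
    intro _ _ F G hF hG
    rw [List.length_nil, add_zero] at hF hG
    have pos : ∀ {N : ℕ} {A : Finset (Fin m → ZMod 2)}, 0 < N → s * N ≤ 2 * s * A.card →
        A.Nonempty ∧ N ≤ 2 * A.card := by
      intro N A hN h1
      have h2 : N ≤ 2 * A.card := by
        have : s * N ≤ s * (2 * A.card) := by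
          calc s * N ≤ 2 * s * A.card := h1
            _ = s * (2 * A.card) := by ring
        exact Nat.le_of_mul_le_mul_left this (by omega)
      refine ⟨?_, h2⟩
      rw [← Finset.card_pos]
      omega
    have fin : ∀ {N : ℕ} {A B : Finset (Fin m → ZMod 2)}, N ≤ 2 * A.card → A.card ≤ w * B.card →
        N ≤ 2 * s * w * B.card := by
      intro N A B h1 h2
      calc N ≤ 2 * A.card := h1
        _ ≤ 2 * (w * B.card) := Nat.mul_le_mul_left _ h2
        _ = 1 * (2 * (w * B.card)) := by ring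
        _ ≤ s * (2 * (w * B.card)) := Nat.mul_le_mul_right _ hs
        _ = 2 * s * w * B.card := by ring
    obtain ⟨F', hF', G', hG', e1, e2, c, hc⟩ := ih F G (pos hNF hF).1 (pos hNG hG).1
    exact ⟨F', hF', G', hG', fin (pos hNF hF).2 e1, fin (pos hNG hG).2 e2, c,
      fun y hy z hz => hc y hy z hz⟩
  | cons r rs ih' =>
    intro hon hrec F G hF hG
    rw [List.length_cons] at hF hG
    have hr := hon r (List.mem_cons_self ..)
    have hrr := hrec r (List.mem_cons_self ..)
    have hon' : ∀ r ∈ rs, On I r.fst ∧ On Iᶜ r.snd := fun t ht => hon t (List.mem_cons_of_mem _ ht)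
    have hrec' : ∀ r ∈ rs, Rect a b w r.sub := fun t ht => hrec t (List.mem_cons_of_mem _ ht)
    have weak : ∀ {N : ℕ} {A : Finset (Fin m → ZMod 2)},
        (s + (rs.length + 1)) * N ≤ 2 * s * A.card → (s + rs.length) * N ≤ 2 * s * A.card := by
      intro N A h1
      refine le_trans (Nat.mul_le_mul_right _ ?_) h1
      omega
    have drop : ∀ {N : ℕ} {A B : Finset (Fin m → ZMod 2)}, B ⊆ A →
        (s + (rs.length + 1)) * N ≤ 2 * s * A.card → 2 * s * B.card ≤ N →
          (s + rs.length) * N ≤ 2 * s * (A \ B).card := by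
      intro N A B hBA h1 h2
      rw [Finset.card_sdiff_of_subset hBA, Nat.mul_sub]
      have h3 : (s + (rs.length + 1)) * N = (s + rs.length) * N + N := by ring
      omega
    by_cases c1 : 2 * s * (F.filter fun y => r.fst (mk a b y 0)).card ≤ NF
    · obtain ⟨F', hF', G', hG', e1, e2, c, hc⟩ := ih' hon' hrec' _ G
        (drop (filter_subset _ _) hF c1) (weak hG)
      refine ⟨F', hF'.trans sdiff_subset, G', hG', e1, e2, c, fun y hy z hz => ?_⟩
      have k1 := mem_sdiff.1 (hF' hy)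
      unfold first
      rw [if_neg, hc y hy z hz]
      rintro ⟨k2, -⟩
      rw [on_fst hb hr.1] at k2
      exact k1.2 (mem_filter.2 ⟨k1.1, k2⟩)
    by_cases c2 : 2 * s * (G.filter fun z => r.snd (mk a b 0 z)).card ≤ NG
    · obtain ⟨F', hF', G', hG', e1, e2, c, hc⟩ := ih' hon' hrec' F _
        (weak hF) (drop (filter_subset _ _) hG c2)
      refine ⟨F', hF', G', hG'.trans sdiff_subset, e1, e2, c, fun y hy z hz => ?_⟩
      have k1 := mem_sdiff.1 (hG' hz)
      unfold first
      rw [if_neg, hc y hy z hz]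
      rintro ⟨-, k2⟩
      rw [on_snd ha hr.2] at k2
      exact k1.2 (mem_filter.2 ⟨k1.1, k2⟩)
    rw [not_le] at c1 c2
    have pos : ∀ {N : ℕ} {A : Finset (Fin m → ZMod 2)}, N < 2 * s * A.card → A.Nonempty := by
      intro N A h1
      rw [← Finset.card_pos]
      rcases Nat.eq_zero_or_pos A.card with h2 | h2
      · rw [h2, mul_zero] at h1
        omega
      · exact h2
    have fin : ∀ {N : ℕ} {A B : Finset (Fin m → ZMod 2)}, N < 2 * s * A.card →
        A.card ≤ w * B.card → N ≤ 2 * s * w * B.card := by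
      intro N A B h1 h2
      calc N ≤ 2 * s * A.card := h1.le
        _ ≤ 2 * s * (w * B.card) := Nat.mul_le_mul_left _ h2
        _ = 2 * s * w * B.card := by ring
    obtain ⟨F', hF', G', hG', e1, e2, c, hc⟩ := hrr _ _ (pos c1) (pos c2)
    refine ⟨F', hF'.trans (filter_subset _ _), G', hG'.trans (filter_subset _ _), fin c1 e1,
      fin c2 e2, c, fun y hy z hz => ?_⟩
    have k1 := (mem_filter.1 (hF' hy)).2
    have k2 := (mem_filter.1 (hG' hz)).2
    unfold first
    rw [if_pos, hc y hy z hz]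
    rw [on_fst hb hr.1, on_snd ha hr.2]
    exact ⟨k1, k2⟩

theorem rect_tree {n m : ℕ} {I : Finset (Fin n)} {a b : Fin m → Fin n} (ha : ∀ u, a u ∈ I)
    (hb : ∀ u, b u ∉ I) {w : ℕ} {h : Ex n → ZMod 2} (hT : Tree I w h) : Rect a b w h := by
  induction hT with
  | leaf w c hw => exact rect_leaf a b w c hw
  | compare w w' f g h₁ h₂ hw hf hg _ _ i₁ i₂ => exact rect_compare ha hb hw hf hg i₁ i₂
  | rank w w' d f g h₁ h₂ hw hf hg _ _ i₁ i₂ => exact rect_rank ha hb hw hf hg i₁ i₂
  | values w w' k f g h hw hf hg _ ih => exact rect_values ha hb hw hf hg ih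
  | list w w' rs h hne hw hon _ _ ihr ih =>
    intro F G hF hG
    have hs : 1 ≤ rs.length := List.length_pos_iff.2 hne
    obtain ⟨F', hF', G', hG', e1, e2, c, hc⟩ := list_aux ha hb hs h ih F.card G.card
      (Finset.card_pos.2 hF) (Finset.card_pos.2 hG) rs hon ihr F G
      (le_of_eq (by ring)) (le_of_eq (by ring))
    exact ⟨F', hF', G', hG', e1.trans (Nat.mul_le_mul_right _ hw),
      e2.trans (Nat.mul_le_mul_right _ hw), c, hc⟩

end Pool.Agent.H40.CT
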