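import Pool.Agent.H40.CT.Cube
import Pool.Agent.H40.CT.Rect
import Pool.Agent.H40.AE.Game

/-!
# Many mistakes of learners whose hypotheses are comparison trees
-/

set_option autoImplicit false

namespace Pool.Agent.H40.CT

open Finset Pool.Agent.H40.AE

theorem fools_of_tree {n M : ℕ} {I : Finset (Fin n)} {a b : Fin M → Fin n}
    (ha : Function.Injective a) (hb : Function.Injective b) (haI : ∀ u, a u ∈ I)
    (hbI : ∀ u, b u ∉ I) {w : ℕ} {h : Ex n → ZMod 2} (hT : Tree I w h) (V : Finset (Fin M))
    (hV : 2 * V.card ≤ n) : Fools a b (cost n w) h V := by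
  classical
  set m := V.card with hm
  let e : Fin m ↪o Fin M := V.orderEmbOfFin rfl
  have he : ∀ u ∈ V, ∃ i, e i = u := by
    intro u hu
    have : u ∈ Set.range (V.orderEmbOfFin rfl) := by
      rw [Finset.range_orderEmbOfFin]
      exact hu
    exact this
  have hab : ∀ u v, (a ∘ e) u ≠ (b ∘ e) v := fun u v hh => hbI (e v) (by
    have : a (e u) = b (e v) := hh
    rw [← this]
    exact haI _)
  have ha' : Function.Injective (a ∘ e) := ha.comp e.injective
  have hb' : Function.Injective (b ∘ e) := hb.comp e.injective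
  obtain ⟨F, -, G, -, e1, e2, c, hc⟩ := rect_tree (a := a ∘ e) (b := b ∘ e) (fun u => haI _)
    (fun u => hbI _) hT univ univ Finset.univ_nonempty Finset.univ_nonempty
  have hcard : (univ : Finset (Fin m → ZMod 2)).card = 2 ^ m := by
    rw [Finset.card_univ, Fintype.card_fun, ZMod.card, Fintype.card_fin]
  have hinj : Function.Injective fun (z : Fin m → ZMod 2) (i : Fin m) => z i + (c + 1) := by
    intro z z' hz
    funext i
    exact add_right_cancel (congrFun hz i)
  obtain ⟨y, hy, z', hz', hd⟩ := near (w := (w : ℝ)) F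
    (G.image fun z i => z i + (c + 1)) (by
      rw [hcard] at e1
      exact_mod_cast e1) (by
      rw [Finset.card_image_of_injective _ hinj]
      rw [hcard] at e2
      exact_mod_cast e2)
  rw [mem_image] at hz'
  obtain ⟨z, hz, rfl⟩ := hz'
  set x : Ex n := mk (a ∘ e) (b ∘ e) y z with hx
  have hxa : ∀ i, x (a (e i)) = y i := fun i => mk_a ha' hab y z i
  have hxb : ∀ i, x (b (e i)) = z i := fun i => mk_b hb' hab y z i
  have z2 : ∀ p q r : ZMod 2, p = q + r → p + q = r := by decide
  have hdist : hammingDist y (fun i => z i + (c + 1)) ≤ cost n w := by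
    unfold cost
    refine Nat.le_floor (hd.trans (Real.sqrt_le_sqrt ?_))
    have h1 : 0 ≤ Real.log w := Real.log_natCast_nonneg w
    have h2 : (2 : ℝ) * m ≤ n := by exact_mod_cast hV
    exact mul_le_mul_of_nonneg_right h2 h1
  refine ⟨x, V.filter fun u => x (a u) + x (b u) = c + 1, c + 1, filter_subset _ _, ?_, ?_, ?_, ?_⟩
  · have h1 : (V.filter fun u => x (a u) + x (b u) = c + 1).card +
        (V.filter fun u => ¬ (x (a u) + x (b u) = c + 1)).card = V.card :=
      Finset.card_filter_add_card_filter_not _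
    have h2 : (V.filter fun u => ¬ (x (a u) + x (b u) = c + 1)) ⊆
        (univ.filter fun i => y i ≠ z i + (c + 1)).image e := by
      intro u hu
      rw [mem_filter] at hu
      obtain ⟨i, rfl⟩ := he u hu.1
      refine mem_image_of_mem _ (mem_filter.2 ⟨mem_univ _, fun hh => hu.2 ?_⟩)
      rw [hxa, hxb]
      exact z2 _ _ _ hh
    have h3 := (Finset.card_le_card h2).trans Finset.card_image_le
    have h4 : (univ.filter fun i => y i ≠ z i + (c + 1)).card ≤ cost n w := hdist
    omega
  · intro i hi1 hi2
    exact mk_zero _ _ _ _ i (fun u => hi1 _) (fun u => hi2 _)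
  · rw [hx, hc y hy z hz]
    have : ∀ c : ZMod 2, c ≠ c + 1 := by decide
    exact this c
  · intro u hu
    exact (mem_filter.1 hu).2

/-- Many mistakes. -/
theorem many (n r j w : ℕ) (I : Finset (Fin n)) (P : List (Ex n × ZMod 2) → Ex n → ZMod 2)
    (hP : ∀ h, Tree I w (P h)) (hr : 2 ≤ r) (h1 : j * cost n w < I.card)
    (h2 : j * cost n w + I.card < n) (hn : 2 * j * cost n w + r ≤ n) :
    ∃ S : Finset (Fin n), S.card = r ∧ ∃ xs : List (Ex n), j ≤ mistakes P (chi S) [] xs := by
  classical
  set c := cost n w with hc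
  set M := j * c + 1 with hM
  have h3 : 2 * j * c = 2 * (j * c) := by ring
  obtain ⟨A, hAI, hA⟩ := Finset.exists_subset_card_eq (s := I) (n := M) (by omega)
  obtain ⟨B, hBI, hB⟩ := Finset.exists_subset_card_eq (s := Iᶜ) (n := M) (by
    rw [Finset.card_compl, Fintype.card_fin]
    omega)
  let a : Fin M → Fin n := fun u => A.orderEmbOfFin hA u
  let b : Fin M → Fin n := fun u => B.orderEmbOfFin hB u
  have haA : ∀ u, a u ∈ A := fun u => A.orderEmbOfFin_mem hA u
  have hbB : ∀ u, b u ∈ B := fun u => B.orderEmbOfFin_mem hB u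
  have ha : Function.Injective a := (A.orderEmbOfFin hA).injective
  have hb : Function.Injective b := (B.orderEmbOfFin hB).injective
  have haI : ∀ u, a u ∈ I := fun u => hAI (haA u)
  have hbI : ∀ u, b u ∉ I := fun u => mem_compl.1 (hBI (hbB u))
  have hab : ∀ u v, a u ≠ b v := fun u v hh => hbI v (hh ▸ haI u)
  obtain ⟨R, hRs, hR⟩ := Finset.exists_subset_card_eq
    (s := (univ : Finset (Fin n)) \ (A ∪ B)) (n := r - 2) (by
      rw [Finset.card_sdiff_of_subset (subset_univ _), Finset.card_univ, Fintype.card_fin]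
      have := Finset.card_union_le A B
      omega)
  have haR : ∀ u, a u ∉ R := fun u hu => (mem_sdiff.1 (hRs hu)).2 (mem_union_left _ (haA u))
  have hbR : ∀ u, b u ∉ R := fun u hu => (mem_sdiff.1 (hRs hu)).2 (mem_union_right _ (hbB u))
  obtain ⟨u, -, xs, hxs⟩ := game a b hab R haR hbR P c (fun h V _ => by
    refine fools_of_tree ha hb haI hbI (hP h) V ?_
    have : V.card ≤ M := (Finset.card_le_univ V).trans (by rw [Fintype.card_fin])
    omega) j univ [] (by
    rw [Finset.card_univ, Fintype.card_fin]
    omega)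
  refine ⟨insert (a u) (insert (b u) R), ?_, xs, hxs⟩
  rw [Finset.card_insert_of_notMem, Finset.card_insert_of_notMem (hbR u), hR]
  · omega
  · rw [mem_insert, not_or]
    exact ⟨hab u u, haR u⟩

theorem lin_split {n : ℕ} (I : Finset (Fin n)) (w : Fin n → ℝ) (x : Ex n) :
    lin w x = (∑ i ∈ I, if x i = 1 then w i else 0) + ∑ i ∈ Iᶜ, if x i = 1 then w i else 0 := by
  unfold lin
  rw [Finset.sum_add_sum_compl]

/-- Boolean functions of threshold gates are comparison trees. -/
theorem tree_gates {n : ℕ} (I : Finset (Fin n)) : ∀ (K : ℕ) (w : Fin K → Fin n → ℝ)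
    (θ : Fin K → ℝ) (comb : (Fin K → Prop) → ZMod 2),
    Tree I (2 ^ K) fun x => comb fun q => θ q ≤ lin (w q) x := by
  intro K
  induction K with
  | zero =>
    intro w θ comb
    have h1 : (fun x : Ex n => comb fun q => θ q ≤ lin (w q) x) =
        fun _ => comb fun q => q.elim0 := by
      funext x
      congr 1
      funext q
      exact q.elim0
    rw [h1]
    exact Tree.leaf _ _ (by norm_num)
  | succ K ih =>
    intro w θ comb
    have h1 : (fun x : Ex n => comb fun q => θ q ≤ lin (w q) x) =
        fun x => if (θ 0 - ∑ i ∈ Iᶜ, if x i = 1 then w 0 i else 0) ≤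
            ∑ i ∈ I, (if x i = 1 then w 0 i else 0) then
          comb (Fin.cons True fun q : Fin K => θ q.succ ≤ lin (w q.succ) x)
        else comb (Fin.cons False fun q : Fin K => θ q.succ ≤ lin (w q.succ) x) := by
      funext x
      have h2 := lin_split I (w 0) x
      by_cases h3 : θ 0 ≤ lin (w 0) x
      · rw [if_pos (by linarith)]
        congr 1
        funext q
        refine Fin.cases ?_ (fun q => ?_) q
        · simp [h3]
        · simp
      · rw [if_neg (by
          intro h4
          exact h3 (by linarith))]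
        congr 1
        funext q
        refine Fin.cases ?_ (fun q => ?_) q
        · simp [h3]
        · simp
    rw [h1]
    refine Tree.compare (2 ^ K) _ (fun x => ∑ i ∈ I, if x i = 1 then w 0 i else 0)
      (fun x => θ 0 - ∑ i ∈ Iᶜ, if x i = 1 then w 0 i else 0) _ _ (by rw [pow_succ]; omega)
      ?_ ?_ ?_ ?_
    · intro x y hxy
      refine Finset.sum_congr rfl fun i hi => ?_
      rw [hxy i hi]
    · intro x y hxy
      simp only
      congr 1
      refine Finset.sum_congr rfl fun i hi => ?_
      rw [hxy i hi]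
    · exact ih (fun q => w q.succ) (fun q => θ q.succ) fun p => comb (Fin.cons True p)
    · exact ih (fun q => w q.succ) (fun q => θ q.succ) fun p => comb (Fin.cons False p)

/-- The part of a linear form on the variables in `J`. -/
noncomputable def part {n : ℕ} (J : Finset (Fin n)) (w : Fin n → ℝ) (x : Ex n) : ℝ :=
  ∑ i ∈ J, if x i = 1 then w i else 0

theorem on_part {n : ℕ} (J : Finset (Fin n)) (w : Fin n → ℝ) (x y : Ex n)
    (h : ∀ i ∈ J, x i = y i) : part J w x = part J w y := by
  unfold part
  refine Finset.sum_congr rfl fun i hi => ?_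
  rw [h i hi]

theorem lin_part {n : ℕ} (I : Finset (Fin n)) (w : Fin n → ℝ) (x : Ex n) :
    lin w x = part I w x + part Iᶜ w x := lin_split I w x

noncomputable def up {n d : ℕ} (I : Finset (Fin n)) (u : Fin n → ℝ) (p q : Fin d → Fin n → ℝ)
    (b : ℝ) (x : Ex n) : Fin (d + d + 2) → ℝ :=
  Fin.append (Fin.append (fun l => part I (p l) x) fun l => part I (q l) x)
    ![part I u x + ∑ l, part I (p l) x * part I (q l) x - b, 1]

noncomputable def dn {n d : ℕ} (J : Finset (Fin n)) (u : Fin n → ℝ) (p q : Fin d → Fin n → ℝ)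
    (x : Ex n) : Fin (d + d + 2) → ℝ :=
  Fin.append (Fin.append (fun l => part J (q l) x) fun l => part J (p l) x)
    ![1, part J u x + ∑ l, part J (p l) x * part J (q l) x]

theorem sum_up_dn {n d : ℕ} (I : Finset (Fin n)) (u : Fin n → ℝ) (p q : Fin d → Fin n → ℝ) (b : ℝ)
    (x : Ex n) : (∑ l, up I u p q b x l * dn Iᶜ u p q x l) =
      lin u x + (∑ l, lin (p l) x * lin (q l) x) - b := by
  have h1 : (∑ l, lin (p l) x * lin (q l) x) =
      (∑ l, part I (p l) x * part I (q l) x) + (∑ l, part Iᶜ (p l) x * part Iᶜ (q l) x) +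
        (∑ l, part I (p l) x * part Iᶜ (q l) x) + ∑ l, part I (q l) x * part Iᶜ (p l) x := by
    rw [← Finset.sum_add_distrib, ← Finset.sum_add_distrib, ← Finset.sum_add_distrib]
    refine Finset.sum_congr rfl fun l _ => ?_
    rw [lin_part I (p l), lin_part I (q l)]
    ring
  rw [h1, lin_part I u, Fin.sum_univ_add, Fin.sum_univ_add, Fin.sum_univ_two]
  simp only [up, dn, Fin.append_left, Fin.append_right]
  simp only [Matrix.cons_val_zero, Matrix.cons_val_one]
  ring

/-- Boolean functions of threshold gates of degree `2` are comparison trees. -/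
theorem tree_quads {n : ℕ} (I : Finset (Fin n)) (K d : ℕ) (w : Fin K → Fin n → ℝ)
    (θ : Fin K → ℝ) : ∀ (L : ℕ) (u : Fin L → Fin n → ℝ) (p q : Fin L → Fin d → Fin n → ℝ)
      (b : Fin L → ℝ) (comb : (Fin K → Prop) → (Fin L → Prop) → ZMod 2),
      Tree I (rcost (d + d + 2) ^ L * 2 ^ K) fun x => comb (fun q => θ q ≤ lin (w q) x) fun i =>
        b i ≤ lin (u i) x + ∑ l, lin (p i l) x * lin (q i l) x := by
  intro L
  induction L with
  | zero =>
    intro u p q b comb
    have h1 : (fun x : Ex n => comb (fun q => θ q ≤ lin (w q) x) fun i =>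
        b i ≤ lin (u i) x + ∑ l, lin (p i l) x * lin (q i l) x) =
        fun x => (fun P => comb P fun i => i.elim0) fun q => θ q ≤ lin (w q) x := by
      funext x
      simp only
      congr 1
      funext i
      exact i.elim0
    rw [h1, pow_zero, one_mul]
    exact tree_gates I K w θ fun P => comb P fun i => i.elim0
  | succ L ih =>
    intro u p q b comb
    have h1 : (fun x : Ex n => comb (fun q => θ q ≤ lin (w q) x) fun i =>
        b i ≤ lin (u i) x + ∑ l, lin (p i l) x * lin (q i l) x) =
        fun x => if 0 ≤ ∑ l, up I (u 0) (p 0) (q 0) (b 0) x l * dn Iᶜ (u 0) (p 0) (q 0) x l then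
          comb (fun q => θ q ≤ lin (w q) x) (Fin.cons True fun i : Fin L =>
            b i.succ ≤ lin (u i.succ) x + ∑ l, lin (p i.succ l) x * lin (q i.succ l) x)
        else comb (fun q => θ q ≤ lin (w q) x) (Fin.cons False fun i : Fin L =>
            b i.succ ≤ lin (u i.succ) x + ∑ l, lin (p i.succ l) x * lin (q i.succ l) x) := by
      funext x
      rw [sum_up_dn]
      by_cases h3 : b 0 ≤ lin (u 0) x + ∑ l, lin (p 0 l) x * lin (q 0 l) x
      · rw [if_pos (by linarith)]
        congr 1
        funext i
        refine Fin.cases ?_ (fun i => ?_) i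
        · simp [h3]
        · simp
      · rw [if_neg (by
          intro h4
          exact h3 (by linarith))]
        congr 1
        funext i
        refine Fin.cases ?_ (fun i => ?_) i
        · simp [h3]
        · simp
    rw [h1]
    refine Tree.rank (rcost (d + d + 2) ^ L * 2 ^ K) _ (d + d + 2) (up I (u 0) (p 0) (q 0) (b 0))
      (dn Iᶜ (u 0) (p 0) (q 0)) _ _ (le_of_eq (by rw [pow_succ]; ring)) ?_ ?_ ?_ ?_
    · intro x y hxy
      unfold up
      simp only [on_part I _ x y hxy]
    · intro x y hxy
      unfold dn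
      simp only [on_part Iᶜ _ x y hxy]
    · exact ih (fun i => u i.succ) (fun i => p i.succ) (fun i => q i.succ) (fun i => b i.succ)
        fun P Q => comb P (Fin.cons True Q)
    · exact ih (fun i => u i.succ) (fun i => p i.succ) (fun i => q i.succ) (fun i => b i.succ)
        fun P Q => comb P (Fin.cons False Q)

end Pool.Agent.H40.CT
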