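import Pool.Agent.H40.CT.Defs
import Pool.Agent.H40.CT.Forster

/-!
# Monochromatic rectangles of sign matrices of rank `d`
-/

set_option autoImplicit false

namespace Pool.Agent.H40.CT

open Finset Matrix

theorem rcost_lt {k d : ℕ} (h : k < d) : 2 * rcost k ≤ rcost d := by
  unfold rcost
  have h1 : (16 * (k + 1) ^ 2) ^ k ≤ (16 * (d + 1) ^ 2) ^ k := by
    refine Nat.pow_le_pow_left ?_ k
    exact Nat.mul_le_mul_left _ (Nat.pow_le_pow_left (by omega) 2)
  have h2 : 0 < 16 * (d + 1) ^ 2 := by positivity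
  have h3 : (16 * (d + 1) ^ 2) ^ (k + 1) ≤ (16 * (d + 1) ^ 2) ^ d :=
    Nat.pow_le_pow_right h2 (by omega)
  have h4 : 2 ≤ 16 * (d + 1) ^ 2 := by
    have : 0 < (d + 1) ^ 2 := by positivity
    omega
  calc 2 * (16 * (k + 1) ^ 2) ^ k ≤ (16 * (d + 1) ^ 2) * (16 * (d + 1) ^ 2) ^ k :=
        Nat.mul_le_mul h4 h1
    _ = (16 * (d + 1) ^ 2) ^ (k + 1) := (pow_succ' _ k).symm
    _ ≤ _ := h3

theorem rcost_ge {d : ℕ} (hd : 0 < d) : 16 * d ≤ rcost d := by
  unfold rcost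
  have h1 : 16 * (d + 1) ^ 2 ≤ (16 * (d + 1) ^ 2) ^ d := Nat.le_self_pow hd.ne' _
  have h2 : d ≤ (d + 1) ^ 2 := by nlinarith
  omega

theorem rcost_ge' {d : ℕ} (hd : 0 < d) : (8 * d ^ 2 + 1) ^ d + 1 ≤ rcost d := by
  unfold rcost
  have h1 : (8 * d ^ 2 + 1) ^ d + 1 ≤ (8 * d ^ 2 + 2) ^ d := by
    have h3 := Nat.pow_lt_pow_left (show 8 * d ^ 2 + 1 < 8 * d ^ 2 + 2 by omega) hd.ne'
    omega
  refine h1.trans (Nat.pow_le_pow_left ?_ d)
  nlinarith

/-- A popular value. -/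
theorem popular' {α γ : Type} [DecidableEq γ] (F : Finset α) (T : Finset γ) (hT : T.Nonempty)
    (κ : α → γ) (h : ∀ y ∈ F, κ y ∈ T) :
    ∃ p ∈ T, F.card ≤ T.card * (F.filter fun y => κ y = p).card := by
  by_contra hcon
  push Not at hcon
  have h1 := Finset.card_eq_sum_card_fiberwise (s := F) (t := T) (f := κ) (fun x hx => h x hx)
  have h2 : T.card * F.card = ∑ b ∈ T, T.card * (F.filter fun x => κ x = b).card := by
    rw [← Finset.mul_sum, ← h1]
  have h3 : ∑ b ∈ T, T.card * (F.filter fun x => κ x = b).card < ∑ _b ∈ T, F.card :=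
    Finset.sum_lt_sum_of_nonempty hT fun p hp => hcon p hp
  rw [Finset.sum_const, smul_eq_mul] at h3
  omega

theorem cs {d : ℕ} (v x : Fin d → ℝ) : (v ⬝ᵥ x) ^ 2 ≤ (v ⬝ᵥ v) * (x ⬝ᵥ x) := by
  have h := Finset.sum_mul_sq_le_sq_mul_sq (univ : Finset (Fin d)) v x
  simpa [dotProduct, sq] using h

theorem abs_le_sqrt {d : ℕ} (x : Fin d → ℝ) (l : Fin d) : |x l| ≤ Real.sqrt (x ⬝ᵥ x) := by
  refine Real.le_sqrt_of_sq_le ?_
  rw [sq_abs, sq]
  exact Finset.single_le_sum (f := fun i => x i * x i) (fun i _ => mul_self_nonneg _) (mem_univ l)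

/-- Two nearby unit vectors are on the same side of a vector that is far from orthogonal. -/
theorem same_side {d : ℕ} (hd : 0 < d) (x v v₀ : Fin d → ℝ) (hx : 0 < x ⬝ᵥ x)
    (hv : ∀ l, |v l - v₀ l| ≤ 1 / (4 * (d : ℝ) ^ 2))
    (h0 : 1 / (4 * (d : ℝ)) ≤ (v₀ ⬝ᵥ x) ^ 2 / (x ⬝ᵥ x)) :
    |v ⬝ᵥ x - v₀ ⬝ᵥ x| < |v₀ ⬝ᵥ x| := by
  have hd0 : (0 : ℝ) < d := by exact_mod_cast hd
  have hd1 : (1 : ℝ) ≤ d := by exact_mod_cast hd
  set s := Real.sqrt (x ⬝ᵥ x) with hs
  have hs0 : 0 < s := Real.sqrt_pos.2 hx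
  have hss : s ^ 2 = x ⬝ᵥ x := Real.sq_sqrt hx.le
  have h1 : |v ⬝ᵥ x - v₀ ⬝ᵥ x| ≤ s / (4 * d) := by
    have h2 : v ⬝ᵥ x - v₀ ⬝ᵥ x = ∑ l, (v l - v₀ l) * x l := by
      unfold dotProduct
      rw [← Finset.sum_sub_distrib]
      refine Finset.sum_congr rfl fun l _ => by ring
    rw [h2]
    refine (Finset.abs_sum_le_sum_abs _ _).trans ?_
    have h3 : ∀ l ∈ (univ : Finset (Fin d)), |(v l - v₀ l) * x l| ≤ 1 / (4 * (d : ℝ) ^ 2) * s := by
      intro l _
      rw [abs_mul]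
      exact mul_le_mul (hv l) (abs_le_sqrt x l) (abs_nonneg _) (by positivity)
    refine (Finset.sum_le_sum h3).trans (le_of_eq ?_)
    rw [Finset.sum_const, Finset.card_univ, Fintype.card_fin, nsmul_eq_mul]
    field_simp
  refine lt_of_le_of_lt h1 ?_
  refine lt_of_pow_lt_pow_left₀ 2 (abs_nonneg _) ?_
  rw [sq_abs]
  have h4 : s ^ 2 / (4 * d) ≤ (v₀ ⬝ᵥ x) ^ 2 := by
    rw [le_div_iff₀ hx, ← hss] at h0
    calc s ^ 2 / (4 * d) = 1 / (4 * d) * s ^ 2 := by ring
      _ ≤ _ := h0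
  refine lt_of_lt_of_le ?_ h4
  rw [div_pow, div_lt_div_iff₀ (by positivity) (by positivity)]
  have h5 : 0 < s ^ 2 := by positivity
  refine mul_lt_mul_of_pos_left ?_ h5
  nlinarith

/-- Monochromatic rectangles of tests of rank `d`. -/
theorem rank_rect : ∀ (d : ℕ) {α β : Type} (F : Finset α) (G : Finset β), F.Nonempty → G.Nonempty →
    ∀ (f : α → Fin d → ℝ) (g : β → Fin d → ℝ), ∃ F' ⊆ F, ∃ G' ⊆ G,
      F.card ≤ rcost d * F'.card ∧ G.card ≤ rcost d * G'.card ∧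
        ((∀ y ∈ F', ∀ z ∈ G', 0 ≤ f y ⬝ᵥ g z) ∨ ∀ y ∈ F', ∀ z ∈ G', f y ⬝ᵥ g z < 0) := by
  classical
  intro d
  induction d using Nat.strong_induction_on with
  | _ d ih =>
  intro α β F G hF hG f g
  rcases Nat.eq_zero_or_pos d with hd | hd
  · subst hd
    refine ⟨F, Subset.refl _, G, Subset.refl _, ?_, ?_, Or.inl fun y _ z _ => ?_⟩
    · simp [rcost]
    · simp [rcost]
    · simp [dotProduct]
  have hFpos := Finset.card_pos.2 hF
  have hGpos := Finset.card_pos.2 hG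
  rcases exists_bd f hd F with ⟨R, hR, hRc, k, hk, c, e, hce⟩ | ⟨F₁, hF₁, hFc, hbd⟩
  · obtain ⟨F', hF', G', hG', e1, e2, hh⟩ := ih k hk R G (Finset.card_pos.1 (by omega)) hG c
      fun z i => e i ⬝ᵥ g z
    have hrk := rcost_lt hk
    have hsum : ∀ y ∈ F', ∀ z, f y ⬝ᵥ g z = c y ⬝ᵥ fun i => e i ⬝ᵥ g z := by
      intro y hy z
      rw [hce y (hF' hy), sum_dotProduct]
      refine Finset.sum_congr rfl fun i _ => ?_
      rw [smul_dotProduct, smul_eq_mul]
    refine ⟨F', hF'.trans hR, G', hG', ?_, ?_, ?_⟩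
    · calc F.card ≤ 2 * R.card := hRc
        _ ≤ 2 * (rcost k * F'.card) := Nat.mul_le_mul_left _ e1
        _ = (2 * rcost k) * F'.card := by ring
        _ ≤ rcost d * F'.card := Nat.mul_le_mul_right _ hrk
    · exact e2.trans (Nat.mul_le_mul_right _ (by omega))
    · rcases hh with hh | hh
      · left
        intro y hy z hz
        rw [hsum y hy z]
        exact hh y hy z hz
      · right
        intro y hy z hz
        rw [hsum y hy z]
        exact hh y hy z hz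
  have hF₁ne : F₁.Nonempty := Finset.card_pos.1 (by omega)
  have hd0 : (0 : ℝ) < d := by exact_mod_cast hd
  obtain ⟨A, hA, hsp⟩ := spread f hd F₁ hF₁ne hbd
  set w : β → Fin d → ℝ := fun z => (A⁻¹)ᵀ *ᵥ g z with hw
  have hid : ∀ x z, x ⬝ᵥ g z = (A *ᵥ x) ⬝ᵥ w z := by
    intro x z
    rw [hw]
    simp only
    rw [Matrix.dotProduct_mulVec, Matrix.vecMul_transpose, Matrix.mulVec_mulVec,
      Matrix.nonsing_inv_mul A (isUnit_iff_ne_zero.2 hA), Matrix.one_mulVec]
  set r : β → ℝ := fun z => Real.sqrt (w z ⬝ᵥ w z) with hr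
  set v : β → Fin d → ℝ := fun z => (r z)⁻¹ • w z with hvdef
  have hrpos : ∀ z, w z ≠ 0 → 0 < r z := by
    intro z hz
    refine Real.sqrt_pos.2 ?_
    have h2 : 0 ≤ w z ⬝ᵥ w z := Finset.sum_nonneg fun i _ => mul_self_nonneg _
    rcases h2.eq_or_lt with h3 | h3
    · exact absurd (dotProduct_self_eq_zero.1 h3.symm) hz
    · exact h3
  have hwv : ∀ z, w z ≠ 0 → w z = r z • v z := by
    intro z hz
    rw [hvdef]
    simp only
    rw [smul_smul, mul_inv_cancel₀ (hrpos z hz).ne', one_smul]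
  have hvv : ∀ z, w z ≠ 0 → v z ⬝ᵥ v z = 1 := by
    intro z hz
    have h1 := hrpos z hz
    have h2 : r z ^ 2 = w z ⬝ᵥ w z :=
      Real.sq_sqrt (Finset.sum_nonneg fun i _ => mul_self_nonneg _)
    rw [hvdef]
    simp only
    rw [smul_dotProduct, dotProduct_smul, ← h2, smul_eq_mul, smul_eq_mul]
    field_simp
  set N : ℤ := 4 * (d : ℤ) ^ 2 with hN
  set κ : β → Option (Fin d → ℤ) := fun z =>
    if w z = 0 then none else some fun l => ⌊4 * (d : ℝ) ^ 2 * v z l⌋ with hκ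
  set T : Finset (Option (Fin d → ℤ)) :=
    Finset.insertNone (Fintype.piFinset fun _ : Fin d => Finset.Icc (-N) N) with hT
  have hTcard : T.card = (8 * d ^ 2 + 1) ^ d + 1 := by
    rw [hT, Finset.card_insertNone, Fintype.card_piFinset_const, Int.card_Icc]
    congr 2
    rw [hN]
    have : (4 * (d : ℤ) ^ 2 + 1 - -(4 * (d : ℤ) ^ 2)) = ((8 * d ^ 2 + 1 : ℕ) : ℤ) := by
      push_cast
      ring
    rw [this, Int.toNat_natCast]
  have hκT : ∀ z ∈ G, κ z ∈ T := by
    intro z _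
    rw [hκ, hT]
    simp only
    split_ifs with hz
    · exact Finset.none_mem_insertNone
    · rw [Finset.some_mem_insertNone, Fintype.mem_piFinset]
      intro l
      have h1 : |v z l| ≤ 1 := by
        have := abs_le_sqrt (v z) l
        rwa [hvv z hz, Real.sqrt_one] at this
      rw [abs_le] at h1
      have h2 : (0 : ℝ) < 4 * (d : ℝ) ^ 2 := by positivity
      rw [Finset.mem_Icc]
      constructor
      · rw [Int.le_floor, hN]
        push_cast
        nlinarith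
      · have h3 : (⌊4 * (d : ℝ) ^ 2 * v z l⌋ : ℝ) ≤ 4 * (d : ℝ) ^ 2 * v z l := Int.floor_le _
        have h4 : (⌊4 * (d : ℝ) ^ 2 * v z l⌋ : ℝ) ≤ (N : ℝ) := by
          rw [hN]
          push_cast
          nlinarith
        exact_mod_cast h4
  obtain ⟨p, hpT, hp⟩ := popular' G T ⟨none, by rw [hT]; exact Finset.none_mem_insertNone⟩ κ hκT
  rw [hTcard] at hp
  have hGc : G.card ≤ rcost d * (G.filter fun z => κ z = p).card :=
    hp.trans (Nat.mul_le_mul_right _ (rcost_ge' hd))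
  have hG'ne : (G.filter fun z => κ z = p).Nonempty := by
    rw [← Finset.card_pos]
    rcases Nat.eq_zero_or_pos (G.filter fun z => κ z = p).card with h | h
    · rw [h, mul_zero] at hGc
      omega
    · exact h
  have hrc := rcost_ge hd
  cases p with
  | none =>
    refine ⟨F, Subset.refl _, _, filter_subset _ _, ?_, hGc, Or.inl fun y _ z hz => ?_⟩
    · exact Nat.le_mul_of_pos_left _ (by omega)
    · have h1 : w z = 0 := by
        by_contra h2
        have h3 := (mem_filter.1 hz).2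
        rw [hκ] at h3
        simp only [h2, if_false] at h3
        exact absurd h3 (by simp)
      rw [hid, h1, dotProduct_zero]
  | some q =>
    have hGw : ∀ z ∈ G.filter (fun z => κ z = some q), w z ≠ 0 ∧
        ∀ l, ⌊4 * (d : ℝ) ^ 2 * v z l⌋ = q l := by
      intro z hz
      have h3 := (mem_filter.1 hz).2
      rw [hκ] at h3
      simp only at h3
      split_ifs at h3 with h4
      refine ⟨h4, fun l => ?_⟩
      rw [Option.some.injEq] at h3
      exact congrFun h3 l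
    obtain ⟨z₀, hz₀⟩ := hG'ne
    obtain ⟨hw₀, hq₀⟩ := hGw z₀ hz₀
    have hspv := hsp (v z₀) (hvv z₀ hw₀)
    set co : α → ℝ := fun y => (v z₀ ⬝ᵥ (A *ᵥ f y)) ^ 2 / ((A *ᵥ f y) ⬝ᵥ (A *ᵥ f y)) with hco
    have hxpos : ∀ y ∈ F₁, 0 < (A *ᵥ f y) ⬝ᵥ (A *ᵥ f y) := fun y hy => dot_pos hA (hbd.1 y hy)
    have hco1 : ∀ y ∈ F₁, co y ≤ 1 := by
      intro y hy
      rw [hco]
      simp only
      rw [div_le_one (hxpos y hy)]
      have := cs (v z₀) (A *ᵥ f y)
      rwa [hvv z₀ hw₀, one_mul] at this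
    set F₂ := F₁.filter fun y => 1 / (4 * (d : ℝ)) ≤ co y with hF₂
    have hF₂c : F₁.card ≤ 4 * d * F₂.card := by
      have h1 : ∑ y ∈ F₁, co y ≤ ∑ y ∈ F₁, ((if 1 / (4 * (d : ℝ)) ≤ co y then 1 else 0) +
          1 / (4 * (d : ℝ))) := by
        refine Finset.sum_le_sum fun y hy => ?_
        split_ifs with h
        · have := hco1 y hy
          have h2 : 0 ≤ 1 / (4 * (d : ℝ)) := by positivity
          linarith
        · rw [not_le] at h
          linarith
      rw [Finset.sum_add_distrib, Finset.sum_const, nsmul_eq_mul] at h1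
      have h2 : (∑ y ∈ F₁, if 1 / (4 * (d : ℝ)) ≤ co y then (1 : ℝ) else 0) = F₂.card := by
        rw [hF₂, Finset.sum_boole]
      rw [h2] at h1
      have h3 : (F₁.card : ℝ) / (2 * d) ≤ F₂.card + F₁.card * (1 / (4 * (d : ℝ))) := by
        linarith
      have h4 : (F₁.card : ℝ) ≤ 4 * d * F₂.card := by
        have h5 : (F₁.card : ℝ) / (2 * d) * (4 * d) = 2 * F₁.card := by
          field_simp
          ring
        have h6 : (F₁.card : ℝ) * (1 / (4 * (d : ℝ))) * (4 * d) = F₁.card := by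
          field_simp
        have h7 := mul_le_mul_of_nonneg_right h3 (show (0 : ℝ) ≤ 4 * d by positivity)
        rw [h5, add_mul, h6] at h7
        linarith
      exact_mod_cast h4
    have hkey : ∀ y ∈ F₂, ∀ z ∈ G.filter (fun z => κ z = some q),
        |v z ⬝ᵥ (A *ᵥ f y) - v z₀ ⬝ᵥ (A *ᵥ f y)| < |v z₀ ⬝ᵥ (A *ᵥ f y)| := by
      intro y hy z hz
      rw [hF₂, mem_filter] at hy
      refine same_side hd _ _ _ (hxpos y hy.1) (fun l => ?_) hy.2
      have h1 := Int.abs_sub_lt_one_of_floor_eq_floor (((hGw z hz).2 l).trans (hq₀ l).symm)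
      rw [← mul_sub, abs_mul, abs_of_pos (show (0 : ℝ) < 4 * (d : ℝ) ^ 2 by positivity)] at h1
      rw [le_div_iff₀ (by positivity)]
      linarith
    have hval : ∀ y, ∀ z ∈ G.filter (fun z => κ z = some q),
        f y ⬝ᵥ g z = r z * (v z ⬝ᵥ (A *ᵥ f y)) ∧ 0 < r z := by
      intro y z hz
      have h1 := (hGw z hz).1
      refine ⟨?_, hrpos z h1⟩
      rw [hid]
      conv_lhs => rw [hwv z h1]
      rw [dotProduct_smul, smul_eq_mul, dotProduct_comm]
    have hsplit := Finset.card_filter_add_card_filter_not (s := F₂)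
      (fun y => 0 < v z₀ ⬝ᵥ (A *ᵥ f y))
    have hfin : ∀ H : Finset α, F₂.card ≤ 2 * H.card → F.card ≤ rcost d * H.card := by
      intro H hH
      calc F.card ≤ 2 * F₁.card := hFc
        _ ≤ 2 * (4 * d * F₂.card) := Nat.mul_le_mul_left _ hF₂c
        _ ≤ 2 * (4 * d * (2 * H.card)) :=
            Nat.mul_le_mul_left _ (Nat.mul_le_mul_left _ hH)
        _ = (16 * d) * H.card := by ring
        _ ≤ rcost d * H.card := Nat.mul_le_mul_right _ hrc
    have hF₂F : F₂ ⊆ F := (filter_subset _ _).trans hF₁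
    by_cases hmaj : F₂.card ≤ 2 * (F₂.filter fun y => 0 < v z₀ ⬝ᵥ (A *ᵥ f y)).card
    · refine ⟨_, (filter_subset _ _).trans hF₂F, _, filter_subset _ _, hfin _ hmaj, hGc,
        Or.inl fun y hy z hz => ?_⟩
      rw [mem_filter] at hy
      have h1 := hkey y hy.1 z hz
      rw [abs_of_pos hy.2, abs_lt] at h1
      obtain ⟨h2, h3⟩ := hval y z hz
      rw [h2]
      exact mul_nonneg h3.le (by linarith)
    · refine ⟨_, (filter_subset (fun y => ¬ 0 < v z₀ ⬝ᵥ (A *ᵥ f y)) _).trans hF₂F, _,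
        filter_subset _ _, hfin _ (by omega), hGc, Or.inr fun y hy z hz => ?_⟩
      rw [mem_filter] at hy
      have h1 := hkey y hy.1 z hz
      rw [abs_of_nonpos (not_lt.1 hy.2), abs_lt] at h1
      obtain ⟨h2, h3⟩ := hval y z hz
      rw [h2]
      exact mul_neg_of_pos_of_neg h3 (by linarith)

end Pool.Agent.H40.CT
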